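import Mathlib

set_option autoImplicit false

namespace Pool.Agent.GDW

variable {P : Type}

/-- two points are inverted by the two position functions -/
def Inv (d f : P → ℕ) (u v : P) : Prop :=
  (d u < d v ∧ f v < f u) ∨ (d v < d u ∧ f u < f v)

/-- the set `Q` is a module of the relation `A` -/
def IsMod (A : P → P → Prop) (Q : Set P) : Prop :=
  ∀ u ∈ Q, ∀ v ∈ Q, ∀ w, w ∉ Q → (A w u ↔ A w v)

/-- `Q` splits into two nonempty parts without edges between them -/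
def Disc (A : P → P → Prop) (Q : Set P) : Prop :=
  ∃ X Y : Set P, X.Nonempty ∧ Y.Nonempty ∧ (∀ z, z ∈ Q ↔ z ∈ X ∨ z ∈ Y) ∧
    ∀ x ∈ X, ∀ y ∈ Y, x ≠ y ∧ ¬ A x y

/-- `Q` splits into two nonempty parts with all edges between them -/
def CoDisc (A : P → P → Prop) (Q : Set P) : Prop :=
  ∃ X Y : Set P, X.Nonempty ∧ Y.Nonempty ∧ (∀ z, z ∈ Q ↔ z ∈ X ∨ z ∈ Y) ∧
    ∀ x ∈ X, ∀ y ∈ Y, x ≠ y ∧ A x y

/-- the exceptional structure: an inflated path on four vertices with the bad signs -/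
def EXC (A : P → P → Prop) (s : P → Bool) : Prop :=
  ∃ (b₁ a₁ a₂ b₂ : P) (ρ : P → P),
    (s b₁ = true ∧ s b₂ = true ∧ s a₁ = false ∧ s a₂ = false) ∧
    (A b₁ a₁ ∧ A a₁ a₂ ∧ A a₂ b₂ ∧ ¬ A b₁ a₂ ∧ ¬ A b₁ b₂ ∧ ¬ A a₁ b₂ ∧ b₁ ≠ b₂) ∧
    (∀ u, ρ u = b₁ ∨ ρ u = a₁ ∨ ρ u = a₂ ∨ ρ u = b₂) ∧
    (ρ b₁ = b₁ ∧ ρ a₁ = a₁ ∧ ρ a₂ = a₂ ∧ ρ b₂ = b₂) ∧
    (∀ u v, ρ u ≠ ρ v → (A u v ↔ A (ρ u) (ρ v))) ∧
    (∀ u, u ≠ ρ u → (A u (ρ u) ↔ s (ρ u) = false))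

/-- no point lies strictly between `p` and `q` -/
def Cons (g : P → ℕ) (p q : P) : Prop := ∀ v, ¬ (g p < g v ∧ g v < g q)

/-- the facts available at one cut of a window without a good set -/
structure LinFacts (d f : P → ℕ) (s : P → Bool) : Prop where
  ld0 : ∀ p q, d p < d q → f p < f q → Cons d p q → Cons f p q → ¬ (s p = false ∧ s q = false)
  ld1 : ∀ p q, d p < d q → f q < f p → Cons d p q → Cons f q p → ¬ (s p = true ∧ s q = true)
  cl1 : ∀ Q : Set P, IsMod (Inv d f) Q → 2 ≤ Q.ncard →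
    Disc (Inv d f) Q ∨ CoDisc (Inv d f) Q ∨ (Q = Set.univ ∧ EXC (Inv d f) s)
  cl2 : Disc (Inv d f) Set.univ → ∃ r, s r = true ∧ ∀ u, ¬ Inv d f r u
  cl3 : CoDisc (Inv d f) Set.univ → ∃ r, s r = false ∧ ∀ u, u ≠ r → Inv d f r u

lemma inv_symm {d f : P → ℕ} {u v : P} (h : Inv d f u v) : Inv d f v u := by
  unfold Inv at *; tauto

lemma inv_comm {d f : P → ℕ} {u v : P} : Inv d f u v ↔ Inv d f v u := ⟨inv_symm, inv_symm⟩

lemma inv_ne {d f : P → ℕ} {u v : P} (h : Inv d f u v) : u ≠ v := by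
  rintro rfl
  unfold Inv at h
  omega

lemma inv_swap {d f : P → ℕ} {u v : P} : Inv f d u v ↔ Inv d f u v := by
  unfold Inv
  constructor <;> rintro (⟨h1, h2⟩ | ⟨h1, h2⟩) <;> omega

lemma inv_swap' (d f : P → ℕ) : Inv f d = Inv d f := by
  funext u v
  exact propext inv_swap

/-- Reversal of the second order. -/
lemma inv_rev {d f : P → ℕ} (hd : Function.Injective d) (hf : Function.Injective f) {N : ℕ}
    (hN : ∀ v, f v ≤ N) {u v : P} :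
    Inv d (fun v => N - f v) u v ↔ u ≠ v ∧ ¬ Inv d f u v := by
  have h1 := hN u
  have h2 := hN v
  unfold Inv
  constructor
  · intro h
    refine ⟨?_, ?_⟩
    · rintro rfl
      dsimp only at h
      omega
    · dsimp only at h
      omega
  · rintro ⟨hne, h⟩
    have h3 : d u ≠ d v := fun h => hne (hd h)
    have h4 : f u ≠ f v := fun h => hne (hf h)
    dsimp only
    omega

lemma disc_rev {A B : P → P → Prop} (h : ∀ u v, B u v ↔ u ≠ v ∧ ¬ A u v) {Q : Set P} :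
    Disc B Q ↔ CoDisc A Q := by
  unfold Disc CoDisc
  constructor
  · rintro ⟨X, Y, hX, hY, hQ, hXY⟩
    refine ⟨X, Y, hX, hY, hQ, fun x hx y hy => ?_⟩
    obtain ⟨h1, h2⟩ := hXY x hx y hy
    refine ⟨h1, ?_⟩
    by_contra h3
    exact h2 ((h x y).mpr ⟨h1, h3⟩)
  · rintro ⟨X, Y, hX, hY, hQ, hXY⟩
    refine ⟨X, Y, hX, hY, hQ, fun x hx y hy => ?_⟩
    obtain ⟨h1, h2⟩ := hXY x hx y hy
    exact ⟨h1, fun h3 => ((h x y).mp h3).2 h2⟩

lemma codisc_rev {A B : P → P → Prop} (h : ∀ u v, B u v ↔ u ≠ v ∧ ¬ A u v) {Q : Set P} :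
    CoDisc B Q ↔ Disc A Q := by
  unfold Disc CoDisc
  constructor
  · rintro ⟨X, Y, hX, hY, hQ, hXY⟩
    refine ⟨X, Y, hX, hY, hQ, fun x hx y hy => ?_⟩
    obtain ⟨h1, h2⟩ := hXY x hx y hy
    exact ⟨h1, ((h x y).mp h2).2⟩
  · rintro ⟨X, Y, hX, hY, hQ, hXY⟩
    refine ⟨X, Y, hX, hY, hQ, fun x hx y hy => ?_⟩
    obtain ⟨h1, h2⟩ := hXY x hx y hy
    exact ⟨h1, (h x y).mpr ⟨h1, h2⟩⟩

lemma isMod_rev {A B : P → P → Prop} (h : ∀ u v, B u v ↔ u ≠ v ∧ ¬ A u v) {Q : Set P}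
    (hQ : IsMod B Q) : IsMod A Q := by
  intro u hu v hv w hw
  have h1 := hQ u hu v hv w hw
  rw [h w u, h w v] at h1
  have hwu : w ≠ u := fun hh => hw (hh ▸ hu)
  have hwv : w ≠ v := fun hh => hw (hh ▸ hv)
  tauto

lemma exc_rev {A B : P → P → Prop} (hA : ∀ u v, A u v → A v u) (hA' : ∀ u, ¬ A u u)
    (h : ∀ u v, B u v ↔ u ≠ v ∧ ¬ A u v)
    {s : P → Bool} (hE : EXC A s) : EXC B (fun v => !(s v)) := by
  obtain ⟨b₁, a₁, a₂, b₂, ρ, ⟨s1, s2, s3, s4⟩, ⟨e1, e2, e3, e4, e5, e6, hbb⟩, hρ,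
    ⟨r1, r2, r3, r4⟩, hhom, hfib⟩ := hE
  have hab : ∀ x y, s x = true → s y = false → x ≠ y := by
    rintro x y hx hy rfl
    rw [hx] at hy; cases hy
  have haa : a₁ ≠ a₂ := fun hh => hA' a₁ (by rw [← hh] at e2; exact e2)
  refine ⟨a₁, b₂, b₁, a₂, ρ, ⟨by simp [s3], by simp [s4], by simp [s2], by simp [s1]⟩,
    ⟨?_, ?_, ?_, ?_, ?_, ?_, haa⟩, ?_, ⟨r2, r4, r1, r3⟩, ?_, ?_⟩
  · rw [h]; exact ⟨(hab _ _ s2 s3).symm, e6⟩
  · rw [h]; exact ⟨hbb.symm, fun hh => e5 (hA _ _ hh)⟩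
  · rw [h]; exact ⟨hab _ _ s1 s4, e4⟩
  · rw [h]; exact fun hh => hh.2 (hA _ _ e1)
  · rw [h]; exact fun hh => hh.2 e2
  · rw [h]; exact fun hh => hh.2 (hA _ _ e3)
  · intro u
    rcases hρ u with hu | hu | hu | hu
    · exact Or.inr (Or.inr (Or.inl hu))
    · exact Or.inl hu
    · exact Or.inr (Or.inr (Or.inr hu))
    · exact Or.inr (Or.inl hu)
  · intro u v huv
    have huv' : u ≠ v := fun hh => huv (by rw [hh])
    rw [h, h, hhom u v huv]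
    tauto
  · intro u hu
    rw [h, hfib u hu]
    simp [hu]

lemma LinFacts.swap {d f : P → ℕ} {s : P → Bool} (h : LinFacts d f s) : LinFacts f d s where
  ld0 := fun p q h1 h2 h3 h4 => h.ld0 p q h2 h1 h4 h3
  ld1 := fun p q h1 h2 h3 h4 hs => h.ld1 q p h2 h1 h4 h3 ⟨hs.2, hs.1⟩
  cl1 := by rw [inv_swap']; exact h.cl1
  cl2 := by rw [inv_swap']; exact h.cl2
  cl3 := by rw [inv_swap']; exact h.cl3

lemma LinFacts.rev {d f : P → ℕ} {s : P → Bool} (h : LinFacts d f s)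
    (hd : Function.Injective d) (hf : Function.Injective f) {N : ℕ} (hN : ∀ v, f v ≤ N) :
    LinFacts d (fun v => N - f v) (fun v => !(s v)) := by
  have hinv : ∀ u v, Inv d (fun v => N - f v) u v ↔ u ≠ v ∧ ¬ Inv d f u v := fun u v =>
    inv_rev hd hf hN
  have hinv' : ∀ u v, Inv d f u v ↔ u ≠ v ∧ ¬ Inv d (fun v => N - f v) u v := by
    intro u v
    rw [hinv]
    constructor
    · intro h1
      exact ⟨inv_ne h1, fun h2 => h2.2 h1⟩
    · rintro ⟨h1, h2⟩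
      by_contra h3
      exact h2 ⟨h1, h3⟩
  have hcons : ∀ p q, Cons (fun v => N - f v) p q → Cons f q p := by
    intro p q hc v hv
    refine hc v ?_
    have h1 := hN p
    have h2 := hN q
    have h3 := hN v
    dsimp only
    omega
  refine ⟨?_, ?_, ?_, ?_, ?_⟩
  · intro p q h1 h2 h3 h4 hs
    have h5 := hN p
    have h6 := hN q
    refine h.ld1 p q h1 (by omega) h3 (hcons p q h4) ?_
    obtain ⟨hs1, hs2⟩ := hs
    constructor
    · simpa using hs1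
    · simpa using hs2
  · intro p q h1 h2 h3 h4 hs
    have h5 := hN p
    have h6 := hN q
    refine h.ld0 p q h1 (by omega) h3 (hcons q p h4) ?_
    obtain ⟨hs1, hs2⟩ := hs
    constructor
    · simpa using hs1
    · simpa using hs2
  · intro Q hQ h2
    rcases h.cl1 Q (isMod_rev hinv hQ) h2 with h3 | h3 | ⟨h3, h4⟩
    · exact Or.inr (Or.inl ((codisc_rev hinv).mpr h3))
    · exact Or.inl ((disc_rev hinv).mpr h3)
    · refine Or.inr (Or.inr ⟨h3, exc_rev (fun u v => inv_symm) (fun u hu => inv_ne hu rfl)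
        hinv h4⟩)
  · intro hD
    obtain ⟨r, hr, hr'⟩ := h.cl3 ((disc_rev hinv).mp hD)
    refine ⟨r, by simp [hr], fun u hu => ?_⟩
    rw [hinv] at hu
    exact hu.2 (hr' u hu.1.symm)
  · intro hD
    obtain ⟨r, hr, hr'⟩ := h.cl2 ((codisc_rev hinv).mp hD)
    refine ⟨r, by simp [hr], fun u hu => ?_⟩
    rw [hinv]
    exact ⟨hu.symm, hr' u⟩

end Pool.Agent.GDW
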