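import Mathlib
import Pool.Agent.GDW.Basic

set_option autoImplicit false

namespace Pool.Agent.GDW

variable {P : Type}

/-- `X` is a common interval of the two orders restricted to `I` -/
def CIn (d f : P → ℕ) (I X : Set P) : Prop :=
  X ⊆ I ∧ ∀ x ∈ X, ∀ y ∈ X, ∀ z ∈ I,
    (d x < d z → d z < d y → z ∈ X) ∧ (f x < f z → f z < f y → z ∈ X)

lemma CIn.rev {d f : P → ℕ} {N : ℕ} (hN : ∀ v, f v ≤ N) {I X : Set P}
    (h : CIn d (fun v => N - f v) I X) : CIn d f I X := by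
  refine ⟨h.1, fun x hx y hy z hz => ⟨(h.2 x hx y hy z hz).1, fun h1 h2 => ?_⟩⟩
  have h3 := hN x
  have h4 := hN y
  have h5 := hN z
  exact (h.2 y hy x hx z hz).2 (by dsimp only; omega) (by dsimp only; omega)

lemma CIn.trans {d f : P → ℕ} {I X : Set P} (h : CIn d f Set.univ I) (h' : CIn d f I X) :
    CIn d f Set.univ X := by
  refine ⟨Set.subset_univ _, fun x hx y hy z _ => ⟨fun h1 h2 => ?_, fun h1 h2 => ?_⟩⟩
  · have hz := (h.2 x (h'.1 hx) y (h'.1 hy) z (Set.mem_univ z)).1 h1 h2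
    exact (h'.2 x hx y hy z hz).1 h1 h2
  · have hz := (h.2 x (h'.1 hx) y (h'.1 hy) z (Set.mem_univ z)).2 h1 h2
    exact (h'.2 x hx y hy z hz).2 h1 h2

lemma isMod_of_ci {d f : P → ℕ} (hd : Function.Injective d) (hf : Function.Injective f)
    {X : Set P} (h : CIn d f Set.univ X) : IsMod (Inv d f) X := by
  intro u hu v hv w hw
  have hwu : w ≠ u := fun hh => hw (hh ▸ hu)
  have hwv : w ≠ v := fun hh => hw (hh ▸ hv)
  have h1 := h.2 u hu v hv w (Set.mem_univ w)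
  have h2 := h.2 v hv u hu w (Set.mem_univ w)
  have a1 : d w ≠ d u := fun hh => hwu (hd hh)
  have a2 : d w ≠ d v := fun hh => hwv (hd hh)
  have a3 : f w ≠ f u := fun hh => hwu (hf hh)
  have a4 : f w ≠ f v := fun hh => hwv (hf hh)
  have b1 : ¬ (d u < d w ∧ d w < d v) := fun hh => hw (h1.1 hh.1 hh.2)
  have b2 : ¬ (d v < d w ∧ d w < d u) := fun hh => hw (h2.1 hh.1 hh.2)
  have b3 : ¬ (f u < f w ∧ f w < f v) := fun hh => hw (h1.2 hh.1 hh.2)
  have b4 : ¬ (f v < f w ∧ f w < f u) := fun hh => hw (h2.2 hh.1 hh.2)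
  unfold Inv
  omega

/-- a disconnected set has a nontrivial common interval -/
lemma disc_ci [Finite P] {d f : P → ℕ} (hd : Function.Injective d) (hf : Function.Injective f)
    {I : Set P} (hI : 3 ≤ I.ncard) (hD : Disc (Inv d f) I) :
    ∃ X, CIn d f I X ∧ 2 ≤ X.ncard ∧ X.ncard < I.ncard := by
  obtain ⟨X, Y, hX, hY, hQ, hXY⟩ := hD
  have hIn : I.Nonempty := Set.nonempty_of_ncard_ne_zero (by omega)
  obtain ⟨a, haI, ha⟩ := Set.exists_min_image I d (Set.toFinite _) hIn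
  -- wlog
  have key : ∀ X Y : Set P, X.Nonempty → Y.Nonempty → (∀ z, z ∈ I ↔ z ∈ X ∨ z ∈ Y) →
      (∀ x ∈ X, ∀ y ∈ Y, x ≠ y ∧ ¬ Inv d f x y) → a ∈ X →
      ∃ X, CIn d f I X ∧ 2 ≤ X.ncard ∧ X.ncard < I.ncard := by
    intro X Y hX hY hQ hXY haX
    obtain ⟨y₀, hy₀, hmin⟩ := Set.exists_min_image Y d (Set.toFinite _) hY
    set I₁ : Set P := {z | z ∈ I ∧ d z < d y₀} with hI₁
    set I₂ : Set P := {z | z ∈ I ∧ ¬ d z < d y₀} with hI₂
    have hI₁X : ∀ z ∈ I₁, z ∈ X := by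
      rintro z ⟨hz, hz'⟩
      rcases (hQ z).mp hz with h | h
      · exact h
      · exact absurd (hmin z h) (by omega)
    have hf₁ : ∀ z ∈ I₁, f z < f y₀ := by
      intro z hz
      obtain ⟨h1, h2⟩ := hXY z (hI₁X z hz) y₀ hy₀
      have h3 : f z ≠ f y₀ := fun hh => h1 (hf hh)
      have h4 := hz.2
      unfold Inv at h2
      omega
    have hf₂ : ∀ z ∈ I₁, ∀ w ∈ I₂, f z < f w := by
      intro z hz w hw
      have h1 := hf₁ z hz
      have h2 := hz.2
      have h3 := hw.2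
      rcases (hQ w).mp hw.1 with h | h
      · obtain ⟨h4, h5⟩ := hXY w h y₀ hy₀
        have h6 : f w ≠ f y₀ := fun hh => h4 (hf hh)
        have h7 : d w ≠ d y₀ := fun hh => h4 (hd hh)
        unfold Inv at h5
        omega
      · obtain ⟨h4, h5⟩ := hXY z (hI₁X z hz) w h
        have h6 : f z ≠ f w := fun hh => h4 (hf hh)
        have h7 : d z ≠ d w := fun hh => h4 (hd hh)
        unfold Inv at h5
        omega
    have haI₁ : a ∈ I₁ := by
      refine ⟨haI, ?_⟩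
      have h1 := ha y₀ ((hQ y₀).mpr (Or.inr hy₀))
      have h2 : d a ≠ d y₀ := fun hh => (hXY a haX y₀ hy₀).1 (hd hh)
      omega
    have hyI₂ : y₀ ∈ I₂ := ⟨(hQ y₀).mpr (Or.inr hy₀), by omega⟩
    have hsum : I₁.ncard + I₂.ncard = I.ncard := by
      rw [← Set.ncard_union_eq]
      · congr 1
        ext z
        simp only [hI₁, hI₂, Set.mem_union, Set.mem_ofPred_eq]
        tauto
      · rw [Set.disjoint_left]
        intro z hz hz'
        exact hz'.2 hz.2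
    have hp1 : 0 < I₁.ncard := (Set.ncard_pos).mpr ⟨a, haI₁⟩
    have hp2 : 0 < I₂.ncard := (Set.ncard_pos).mpr ⟨y₀, hyI₂⟩
    by_cases hc : 2 ≤ I₁.ncard
    · refine ⟨I₁, ⟨fun z hz => hz.1, fun x hx y hy z hz => ⟨fun h1 h2 => ?_, fun h1 h2 => ?_⟩⟩,
        hc, by omega⟩
      · exact ⟨hz, lt_trans h2 hy.2⟩
      · by_contra h3
        have h4 : z ∈ I₂ := ⟨hz, fun h4 => h3 ⟨hz, h4⟩⟩
        have := hf₂ y hy z h4
        omega
    · refine ⟨I₂, ⟨fun z hz => hz.1, fun x hx y hy z hz => ⟨fun h1 h2 => ?_, fun h1 h2 => ?_⟩⟩,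
        by omega, by omega⟩
      · exact ⟨hz, fun h3 => hx.2 (lt_trans h1 h3)⟩
      · by_contra h3
        have h4 : z ∈ I₁ := by
          refine ⟨hz, ?_⟩
          by_contra h4
          exact h3 ⟨hz, h4⟩
        have := hf₂ z h4 x hx
        omega
  rcases (hQ a).mp haI with h | h
  · exact key X Y hX hY hQ hXY h
  · refine key Y X hY hX (fun z => by rw [hQ z]; tauto) (fun x hx y hy => ?_) h
    obtain ⟨h1, h2⟩ := hXY y hy x hx
    exact ⟨h1.symm, fun h3 => h2 (inv_symm h3)⟩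

/-- a co-disconnected set has a nontrivial common interval -/
lemma codisc_ci [Finite P] {d f : P → ℕ} (hd : Function.Injective d) (hf : Function.Injective f)
    {I : Set P} (hI : 3 ≤ I.ncard) (hD : CoDisc (Inv d f) I) :
    ∃ X, CIn d f I X ∧ 2 ≤ X.ncard ∧ X.ncard < I.ncard := by
  obtain ⟨N, hN⟩ : ∃ N, ∀ v, f v ≤ N := by
    obtain ⟨N, hN⟩ := (Set.finite_range f).bddAbove
    exact ⟨N, fun v => hN (Set.mem_range_self v)⟩
  have hinv : ∀ u v, Inv d (fun v => N - f v) u v ↔ u ≠ v ∧ ¬ Inv d f u v := fun u v =>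
    inv_rev hd hf hN
  have hfr : Function.Injective (fun v => N - f v) := by
    intro u v huv
    have h1 := hN u
    have h2 := hN v
    dsimp only at huv
    exact hf (by omega)
  obtain ⟨X, hX, h1, h2⟩ := disc_ci hd hfr hI ((disc_rev hinv).mpr hD)
  exact ⟨X, hX.rev hN, h1, h2⟩

lemma not_disc_and_codisc {A : P → P → Prop} {U : Set P} (h1 : Disc A U) (h2 : CoDisc A U)
    (hA : ∀ u v, A u v → A v u) : False := by
  obtain ⟨X, Y, ⟨x, hx⟩, ⟨y, hy⟩, hQ, hXY⟩ := h1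
  obtain ⟨X', Y', hX', hY', hQ', hXY'⟩ := h2
  -- every element of X and every element of Y are on the same side
  have same : ∀ u ∈ X, ∀ v ∈ Y, (u ∈ X' ↔ v ∈ X') := by
    intro u hu v hv
    have hn := (hXY u hu v hv).2
    have hu' := (hQ' u).mp ((hQ u).mpr (Or.inl hu))
    have hv' := (hQ' v).mp ((hQ v).mpr (Or.inr hv))
    constructor
    · intro h
      rcases hv' with h' | h'
      · exact h'
      · exact absurd (hXY' u h v h').2 hn
    · intro h
      rcases hu' with h' | h'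
      · exact h'
      · exact absurd (hA _ _ (hXY' v h u h').2) hn
  have all : ∀ z ∈ U, (z ∈ X' ↔ x ∈ X') := by
    intro z hz
    rcases (hQ z).mp hz with h | h
    · rw [same z h y hy, same x hx y hy]
    · rw [same x hx z h]
  obtain ⟨x', hx'⟩ := hX'
  obtain ⟨y', hy'⟩ := hY'
  have h3 : x' ∈ U := (hQ' x').mpr (Or.inl hx')
  have h4 : y' ∈ U := (hQ' y').mpr (Or.inr hy')
  have h5 : y' ∈ X' := (all y' h4).mpr ((all x' h3).mp hx')
  exact (hXY' y' h5 y' hy').1 rfl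

/-- the hull of a module is a common interval -/
lemma hull_ci [Finite P] {d f : P → ℕ} (hd : Function.Injective d) (hf : Function.Injective f)
    {U : Set P} (hU : IsMod (Inv d f) U) :
    CIn d f Set.univ {v | (∃ x ∈ U, ∃ y ∈ U, d x ≤ d v ∧ d v ≤ d y)} := by
  -- the D-hull equals the F-hull
  have hDF : ∀ v, (∃ x ∈ U, ∃ y ∈ U, d x ≤ d v ∧ d v ≤ d y) →
      (∃ x ∈ U, ∃ y ∈ U, f x ≤ f v ∧ f v ≤ f y) := by
    rintro v ⟨x, hx, y, hy, h1, h2⟩
    by_cases hv : v ∈ U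
    · exact ⟨v, hv, v, hv, le_rfl, le_rfl⟩
    · have hvx : v ≠ x := fun hh => hv (hh ▸ hx)
      have hvy : v ≠ y := fun hh => hv (hh ▸ hy)
      have h3 := hU x hx y hy v hv
      have a1 : d v ≠ d x := fun hh => hvx (hd hh)
      have a2 : d v ≠ d y := fun hh => hvy (hd hh)
      have a3 : f v ≠ f x := fun hh => hvx (hf hh)
      have a4 : f v ≠ f y := fun hh => hvy (hf hh)
      unfold Inv at h3
      by_cases h4 : f v < f x
      · exact ⟨y, hy, x, hx, by omega, by omega⟩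
      · exact ⟨x, hx, y, hy, by omega, by omega⟩
  have hFD : ∀ v, (∃ x ∈ U, ∃ y ∈ U, f x ≤ f v ∧ f v ≤ f y) →
      (∃ x ∈ U, ∃ y ∈ U, d x ≤ d v ∧ d v ≤ d y) := by
    rintro v ⟨x, hx, y, hy, h1, h2⟩
    by_cases hv : v ∈ U
    · exact ⟨v, hv, v, hv, le_rfl, le_rfl⟩
    · have hvx : v ≠ x := fun hh => hv (hh ▸ hx)
      have hvy : v ≠ y := fun hh => hv (hh ▸ hy)
      have h3 := hU x hx y hy v hv
      have a1 : d v ≠ d x := fun hh => hvx (hd hh)
      have a2 : d v ≠ d y := fun hh => hvy (hd hh)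
      have a3 : f v ≠ f x := fun hh => hvx (hf hh)
      have a4 : f v ≠ f y := fun hh => hvy (hf hh)
      unfold Inv at h3
      by_cases h4 : d v < d x
      · exact ⟨y, hy, x, hx, by omega, by omega⟩
      · exact ⟨x, hx, y, hy, by omega, by omega⟩
  refine ⟨Set.subset_univ _, ?_⟩
  intro x hx y hy z _
  refine ⟨fun h1 h2 => ?_, fun h1 h2 => ?_⟩
  · obtain ⟨x1, hx1, x2, hx2, h3, h4⟩ := hx
    obtain ⟨y1, hy1, y2, hy2, h5, h6⟩ := hy
    exact ⟨x1, hx1, y2, hy2, by omega, by omega⟩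
  · obtain ⟨x1, hx1, x2, hx2, h3, h4⟩ := hDF x hx
    obtain ⟨y1, hy1, y2, hy2, h5, h6⟩ := hDF y hy
    exact hFD z ⟨x1, hx1, y2, hy2, by omega, by omega⟩

/-- primality of the inversion graph of a pair of orders without nontrivial common intervals -/
theorem prime_of_noCI [Finite P] {d f : P → ℕ} (hd : Function.Injective d)
    (hf : Function.Injective f) (h3 : 3 ≤ (Set.univ : Set P).ncard)
    (hno : ∀ X : Set P, CIn d f Set.univ X → 2 ≤ X.ncard → X = Set.univ)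
    (U : Set P) (hU : IsMod (Inv d f) U) (h2 : 2 ≤ U.ncard) : U = Set.univ := by
  by_contra hne
  have hull := hull_ci hd hf hU
  set X : Set P := {v | (∃ x ∈ U, ∃ y ∈ U, d x ≤ d v ∧ d v ≤ d y)} with hX
  have hUX : U ⊆ X := fun u hu => ⟨u, hu, u, hu, le_rfl, le_rfl⟩
  have hXu : X = Set.univ := hno X hull (le_trans h2 (Set.ncard_le_ncard hUX))
  have hnoD : ¬ Disc (Inv d f) Set.univ := by
    intro hD
    obtain ⟨Y, hY, hY2, hY3⟩ := disc_ci hd hf h3 hD
    rw [hno Y hY hY2] at hY3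
    omega
  have hnoC : ¬ CoDisc (Inv d f) Set.univ := by
    intro hD
    obtain ⟨Y, hY, hY2, hY3⟩ := codisc_ci hd hf h3 hD
    rw [hno Y hY hY2] at hY3
    omega
  have hUne : U.Nonempty := Set.nonempty_of_ncard_ne_zero (by omega)
  obtain ⟨u₀, hu₀⟩ := hUne
  obtain ⟨w₀, hw₀⟩ : ∃ w, w ∉ U := by
    by_contra hcon
    push Not at hcon
    exact hne (Set.eq_univ_of_forall hcon)
  -- outside vertices
  have hbet : ∀ v, v ∉ U → ∃ x ∈ U, ∃ y ∈ U, d x < d v ∧ d v < d y := by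
    intro v hv
    have : v ∈ X := by rw [hXu]; exact Set.mem_univ v
    obtain ⟨x, hx, y, hy, h4, h5⟩ := this
    have a1 : d x ≠ d v := fun hh => hv ((hd hh) ▸ hx)
    have a2 : d v ≠ d y := fun hh => hv ((hd hh).symm ▸ hy)
    exact ⟨x, hx, y, hy, by omega, by omega⟩
  have hdis : ∀ v, v ∉ U → (∀ u ∈ U, ¬ Inv d f v u) → Disc (Inv d f) U := by
    intro v hv hvu
    obtain ⟨x, hx, y, hy, h4, h5⟩ := hbet v hv
    refine ⟨{u | u ∈ U ∧ d u < d v}, {u | u ∈ U ∧ d v < d u}, ⟨x, hx, h4⟩, ⟨y, hy, h5⟩, ?_, ?_⟩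
    · intro z
      simp only [Set.mem_ofPred_eq]
      constructor
      · intro hz
        have : d z ≠ d v := fun hh => hv ((hd hh) ▸ hz)
        rcases Nat.lt_or_gt_of_ne this with h | h
        · exact Or.inl ⟨hz, h⟩
        · exact Or.inr ⟨hz, h⟩
      · rintro (h | h) <;> exact h.1
    · rintro a ⟨ha, ha'⟩ b ⟨hb, hb'⟩
      have h6 := hvu a ha
      have h7 := hvu b hb
      have a1 : f a ≠ f v := fun hh => hv ((hf hh) ▸ ha)
      have a2 : f b ≠ f v := fun hh => hv ((hf hh) ▸ hb)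
      refine ⟨fun hh => by rw [hh] at ha'; omega, ?_⟩
      unfold Inv at *
      omega
  have hcod : ∀ v, v ∉ U → (∀ u ∈ U, Inv d f v u) → CoDisc (Inv d f) U := by
    intro v hv hvu
    obtain ⟨x, hx, y, hy, h4, h5⟩ := hbet v hv
    refine ⟨{u | u ∈ U ∧ d u < d v}, {u | u ∈ U ∧ d v < d u}, ⟨x, hx, h4⟩, ⟨y, hy, h5⟩, ?_, ?_⟩
    · intro z
      simp only [Set.mem_ofPred_eq]
      constructor
      · intro hz
        have : d z ≠ d v := fun hh => hv ((hd hh) ▸ hz)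
        rcases Nat.lt_or_gt_of_ne this with h | h
        · exact Or.inl ⟨hz, h⟩
        · exact Or.inr ⟨hz, h⟩
      · rintro (h | h) <;> exact h.1
    · rintro a ⟨ha, ha'⟩ b ⟨hb, hb'⟩
      have h6 := hvu a ha
      have h7 := hvu b hb
      refine ⟨fun hh => by rw [hh] at ha'; omega, ?_⟩
      unfold Inv at *
      omega
  have hhom : ∀ v, v ∉ U → (∀ u ∈ U, Inv d f v u) ∨ (∀ u ∈ U, ¬ Inv d f v u) := by
    intro v hv
    by_cases h : Inv d f v u₀
    · exact Or.inl fun u hu => (hU u hu u₀ hu₀ v hv).mpr h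
    · exact Or.inr fun u hu h' => h ((hU u hu u₀ hu₀ v hv).mp h')
  by_cases hall : ∀ v, v ∉ U → (∀ u ∈ U, Inv d f v u)
  · apply hnoC
    refine ⟨U, Uᶜ, ⟨u₀, hu₀⟩, ⟨w₀, hw₀⟩, fun z => by simp [Classical.em], ?_⟩
    intro x hx y hy
    exact ⟨fun hh => hy (hh ▸ hx), inv_symm (hall y hy x hx)⟩
  · by_cases hall' : ∀ v, v ∉ U → (∀ u ∈ U, ¬ Inv d f v u)
    · apply hnoD
      refine ⟨U, Uᶜ, ⟨u₀, hu₀⟩, ⟨w₀, hw₀⟩, fun z => by simp [Classical.em], ?_⟩
      intro x hx y hy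
      exact ⟨fun hh => hy (hh ▸ hx), fun h => hall' y hy x hx (inv_symm h)⟩
    · push Not at hall hall'
      obtain ⟨v, hv, u, hu, hvu⟩ := hall
      obtain ⟨v', hv', u', hu', hvu'⟩ := hall'
      have h4 : ∀ u ∈ U, ¬ Inv d f v u := by
        rcases hhom v hv with h | h
        · exact absurd (h u hu) hvu
        · exact h
      have h5 : ∀ u ∈ U, Inv d f v' u := by
        rcases hhom v' hv' with h | h
        · exact h
        · exact absurd hvu' (h u' hu')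
      exact not_disc_and_codisc (hdis v hv h4) (hcod v' hv' h5) (fun u v => inv_symm)

end Pool.Agent.GDW
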