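import Mathlib
import Pool.Agent.GDW.Pr

set_option autoImplicit false

namespace Pool.Agent.GDW

variable {P : Type}

/-- the two patterns of an induced path `b₁ a₁ a₂ b₂` -/
lemma pattern {d f : P → ℕ} (hd : Function.Injective d) (hf : Function.Injective f)
    {b₁ a₁ a₂ b₂ : P} (e1 : Inv d f b₁ a₁) (e2 : Inv d f a₁ a₂) (e3 : Inv d f a₂ b₂)
    (e4 : ¬ Inv d f b₁ a₂) (e5 : ¬ Inv d f b₁ b₂) (e6 : ¬ Inv d f a₁ b₂) (hbb : b₁ ≠ b₂)
    (hb1a2 : b₁ ≠ a₂) (ha1b2 : a₁ ≠ b₂) :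
    ((d a₁ < d b₁ ∧ d b₁ < d b₂ ∧ d b₂ < d a₂) ∧ (f b₁ < f a₂ ∧ f a₂ < f a₁ ∧ f a₁ < f b₂)) ∨
    ((d b₁ < d a₂ ∧ d a₂ < d a₁ ∧ d a₁ < d b₂) ∧ (f a₁ < f b₁ ∧ f b₁ < f b₂ ∧ f b₂ < f a₂)) ∨
    ((d a₂ < d b₂ ∧ d b₂ < d b₁ ∧ d b₁ < d a₁) ∧ (f b₂ < f a₁ ∧ f a₁ < f a₂ ∧ f a₂ < f b₁)) ∨
    ((d b₂ < d a₁ ∧ d a₁ < d a₂ ∧ d a₂ < d b₁) ∧ (f a₂ < f b₂ ∧ f b₂ < f b₁ ∧ f b₁ < f a₁)) := by
  have ninv : ∀ u v, u ≠ v → ¬ Inv d f u v →
      (d u < d v ∧ f u < f v) ∨ (d v < d u ∧ f v < f u) := by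
    intro u v huv h
    have h1 : d u ≠ d v := fun h => huv (hd h)
    have h2 : f u ≠ f v := fun h => huv (hf h)
    unfold Inv at h
    omega
  rcases e1 with e1 | e1 <;> rcases e2 with e2 | e2 <;> rcases e3 with e3 | e3 <;>
    rcases ninv _ _ hb1a2 e4 with e4 | e4 <;> rcases ninv _ _ hbb e5 with e5 | e5 <;>
    rcases ninv _ _ ha1b2 e6 with e6 | e6 <;>
    first
      | (exfalso; omega)
      | (left; refine ⟨⟨?_, ?_, ?_⟩, ⟨?_, ?_, ?_⟩⟩ <;> omega)
      | (right; left; refine ⟨⟨?_, ?_, ?_⟩, ⟨?_, ?_, ?_⟩⟩ <;> omega)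
      | (right; right; left; refine ⟨⟨?_, ?_, ?_⟩, ⟨?_, ?_, ?_⟩⟩ <;> omega)
      | (right; right; right; refine ⟨⟨?_, ?_, ?_⟩, ⟨?_, ?_, ?_⟩⟩ <;> omega)

/-- Existence of a digon at a cut. -/
theorem ex_lin [Finite P] {d f : P → ℕ} {s : P → Bool} (hd : Function.Injective d)
    (hf : Function.Injective f) (h : LinFacts d f s) (h2 : 2 ≤ (Set.univ : Set P).ncard) :
    (∃ p q, d p < d q ∧ Cons d p q ∧ ((f p < f q ∧ Cons f p q) ∨ (f q < f p ∧ Cons f q p))) ∨
    (∃ b₁ a₁ a₂ b₂ : P, (s b₁ = true ∧ s b₂ = true ∧ s a₁ = false ∧ s a₂ = false) ∧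
      (∀ u, u = b₁ ∨ u = a₁ ∨ u = a₂ ∨ u = b₂) ∧
      (((d a₁ < d b₁ ∧ d b₁ < d b₂ ∧ d b₂ < d a₂) ∧ (f b₁ < f a₂ ∧ f a₂ < f a₁ ∧ f a₁ < f b₂)) ∨
       ((d b₁ < d a₂ ∧ d a₂ < d a₁ ∧ d a₁ < d b₂) ∧
        (f a₁ < f b₁ ∧ f b₁ < f b₂ ∧ f b₂ < f a₂)))) := by
  classical
  have hex : ∃ n, ∃ X : Set P, CIn d f Set.univ X ∧ 2 ≤ X.ncard ∧ X.ncard = n :=
    ⟨_, Set.univ, ⟨subset_rfl, fun x _ y _ z _ => ⟨fun _ _ => Set.mem_univ z,
      fun _ _ => Set.mem_univ z⟩⟩, h2, rfl⟩
  obtain ⟨I, hI, hI2, hIn⟩ := Nat.find_spec hex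
  have hmin : ∀ X : Set P, CIn d f Set.univ X → 2 ≤ X.ncard → I.ncard ≤ X.ncard := by
    intro X hX hX2
    rw [hIn]
    exact Nat.find_min' hex ⟨X, hX, hX2, rfl⟩
  by_cases h3 : I.ncard = 2
  · left
    obtain ⟨p, q, hpq, hIpq⟩ := Set.ncard_eq_two.mp h3
    have hmem : ∀ v, v ∈ I ↔ v = p ∨ v = q := by
      intro v; rw [hIpq]; simp
    have hp : p ∈ I := (hmem p).mpr (Or.inl rfl)
    have hq : q ∈ I := (hmem q).mpr (Or.inr rfl)
    have key : ∀ p q, p ∈ I → q ∈ I → (∀ v ∈ I, v = p ∨ v = q) → d p < d q →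
        ∃ p q, d p < d q ∧ Cons d p q ∧
          ((f p < f q ∧ Cons f p q) ∨ (f q < f p ∧ Cons f q p)) := by
      intro p q hp hq hall hlt
      have hpq : p ≠ q := by rintro rfl; omega
      refine ⟨p, q, hlt, ?_, ?_⟩
      · intro v ⟨h5, h6⟩
        rcases hall v ((hI.2 p hp q hq v (Set.mem_univ v)).1 h5 h6) with h | h <;> subst h <;> omega
      · have hne : f p ≠ f q := fun hh => hpq (hf hh)
        rcases Nat.lt_or_gt_of_ne hne with h4 | h4
        · refine Or.inl ⟨h4, ?_⟩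
          intro v ⟨h5, h6⟩
          rcases hall v ((hI.2 p hp q hq v (Set.mem_univ v)).2 h5 h6) with h | h <;>
            subst h <;> omega
        · refine Or.inr ⟨h4, ?_⟩
          intro v ⟨h5, h6⟩
          rcases hall v ((hI.2 q hq p hp v (Set.mem_univ v)).2 h5 h6) with h | h <;>
            subst h <;> omega
    have hne : d p ≠ d q := fun hh => hpq (hd hh)
    rcases Nat.lt_or_gt_of_ne hne with h4 | h4
    · exact key p q hp hq (fun v hv => (hmem v).mp hv) h4
    · exact key q p hq hp (fun v hv => ((hmem v).mp hv).symm) h4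
  · right
    have h3' : 3 ≤ I.ncard := by omega
    have hnoD : ¬ Disc (Inv d f) I := by
      intro hD
      obtain ⟨Y, hY, hY2, hY3⟩ := disc_ci hd hf h3' hD
      have := hmin Y (hI.trans hY) hY2
      omega
    have hnoC : ¬ CoDisc (Inv d f) I := by
      intro hD
      obtain ⟨Y, hY, hY2, hY3⟩ := codisc_ci hd hf h3' hD
      have := hmin Y (hI.trans hY) hY2
      omega
    rcases h.cl1 I (isMod_of_ci hd hf hI) hI2 with h4 | h4 | ⟨hIu, h4⟩
    · exact absurd h4 hnoD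
    · exact absurd h4 hnoC
    · obtain ⟨b₁, a₁, a₂, b₂, ρ, ⟨s1, s2, s3, s4⟩, ⟨e1, e2, e3, e4, e5, e6, hbb⟩, hρ,
        ⟨r1, r2, r3, r4⟩, hhom, hfib⟩ := h4
      have hab : ∀ x y, s x = true → s y = false → x ≠ y := by
        rintro x y hx hy rfl
        rw [hx] at hy; cases hy
      have hno : ∀ X : Set P, CIn d f Set.univ X → 2 ≤ X.ncard → X = Set.univ := by
        intro X hX hX2
        have h5 := hmin X hX hX2
        rw [hIu] at h5
        exact Set.eq_of_subset_of_ncard_le (Set.subset_univ _) h5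
      rw [hIu] at h3'
      have hρρ : ∀ u, ρ (ρ u) = ρ u := by
        intro u
        rcases hρ u with hu | hu | hu | hu <;> rw [hu] <;> assumption
      have hρid : ∀ u, ρ u = u := by
        intro u
        by_contra hne
        have hmod : IsMod (Inv d f) {v | ρ v = ρ u} := by
          intro x hx y hy w hw
          have hx' : ρ x = ρ u := hx
          have hy' : ρ y = ρ u := hy
          have hw' : ρ w ≠ ρ u := hw
          rw [hhom w x (by rw [hx']; exact hw'), hhom w y (by rw [hy']; exact hw'), hx', hy']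
        have hcard : 2 ≤ ({v | ρ v = ρ u} : Set P).ncard := by
          have hsub : ({ρ u, u} : Set P) ⊆ {v | ρ v = ρ u} := by
            rintro v (hv | hv)
            · rw [hv]; exact hρρ u
            · rw [hv]; rfl
          calc 2 = ({ρ u, u} : Set P).ncard := (Set.ncard_pair hne).symm
            _ ≤ _ := Set.ncard_le_ncard hsub
        have huniv := prime_of_noCI hd hf h3' hno _ hmod hcard
        have m1 : b₁ ∈ ({v | ρ v = ρ u} : Set P) := by rw [huniv]; exact Set.mem_univ _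
        have m2 : a₁ ∈ ({v | ρ v = ρ u} : Set P) := by rw [huniv]; exact Set.mem_univ _
        have m1' : ρ b₁ = ρ u := m1
        have m2' : ρ a₁ = ρ u := m2
        exact hab _ _ s1 s3 (by rw [← r1, ← r2, m1', m2'])
      have hall : ∀ u, u = b₁ ∨ u = a₁ ∨ u = a₂ ∨ u = b₂ := by
        intro u
        have := hρ u
        rw [hρid u] at this
        exact this
      rcases pattern hd hf e1 e2 e3 e4 e5 e6 hbb (hab _ _ s1 s4) (hab _ _ s2 s3).symm with
        hp | hp | hp | hp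
      · exact ⟨b₁, a₁, a₂, b₂, ⟨s1, s2, s3, s4⟩, hall, Or.inl hp⟩
      · exact ⟨b₁, a₁, a₂, b₂, ⟨s1, s2, s3, s4⟩, hall, Or.inr hp⟩
      · exact ⟨b₂, a₂, a₁, b₁, ⟨s2, s1, s4, s3⟩, fun u => by
          rcases hall u with h | h | h | h <;> simp [h], Or.inl hp⟩
      · exact ⟨b₂, a₂, a₁, b₁, ⟨s2, s1, s4, s3⟩, fun u => by
          rcases hall u with h | h | h | h <;> simp [h], Or.inr hp⟩

/-- The digon argument at a cut whose first mark lies inside the digon. -/
theorem dg_lin {d f : P → ℕ} {s : P → Bool} (hd : Function.Injective d)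
    (hf : Function.Injective f) (h : LinFacts d f s) {p q : P}
    (hfin : 2 ≤ (Set.univ : Set P).ncard)
    (hq : ∀ v, d q ≤ d v) (hp : ∀ v, d v ≤ d p) (hpq : f p < f q) (hc : Cons f p q) :
    ((∀ v, f p ≤ f v) ∧ s p = false) ∨ ((∀ v, f v ≤ f q) ∧ s q = false) ∨
      (s p = false ∧ s q = false) := by
  have hne : p ≠ q := by rintro rfl; omega
  have hAp : ∀ v, v ≠ p → v ≠ q → (Inv d f v p ↔ ¬ Inv d f v q) := by
    intro v h1 h2
    have a1 : d v ≠ d p := fun hh => h1 (hd hh)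
    have a2 : d v ≠ d q := fun hh => h2 (hd hh)
    have a3 : f v ≠ f p := fun hh => h1 (hf hh)
    have a4 : f v ≠ f q := fun hh => h2 (hf hh)
    have b1 := hq v
    have b2 := hp v
    have b3 := hc v
    unfold Inv
    omega
  have hpqA : Inv d f p q := by
    have h1 := hq p
    have h2 : d q ≠ d p := fun hh => hne (hd hh).symm
    right
    exact ⟨by omega, hpq⟩
  -- the graph is connected
  have hnD : ¬ Disc (Inv d f) Set.univ := by
    rintro ⟨X, Y, hX, hY, hQ, hXY⟩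
    have key : ∀ X Y : Set P, X.Nonempty → Y.Nonempty → (∀ z, z ∈ Set.univ ↔ z ∈ X ∨ z ∈ Y) →
      (∀ x ∈ X, ∀ y ∈ Y, x ≠ y ∧ ¬ Inv d f x y) → p ∈ X → False := by
      intro X Y hX hY hQ hXY hpX
      have hqX : q ∈ X := by
        rcases (hQ q).mp (Set.mem_univ q) with h | h
        · exact h
        · exact absurd hpqA (hXY p hpX q h).2
      obtain ⟨y, hy⟩ := hY
      have h1 := hXY p hpX y hy
      have h2 := hXY q hqX y hy
      have h3 := hAp y h1.1.symm h2.1.symm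
      rw [inv_comm] at h1
      rw [inv_comm (u := q)] at h2
      tauto
    rcases (hQ p).mp (Set.mem_univ p) with h | h
    · exact key X Y hX hY hQ hXY h
    · refine key Y X hY hX (fun z => by rw [hQ z]; tauto) (fun x hx y hy => ?_) h
      obtain ⟨h1, h2⟩ := hXY y hy x hx
      exact ⟨h1.symm, fun h3 => h2 (inv_symm h3)⟩
  rcases h.cl1 Set.univ (fun u _ v _ w hw => absurd (Set.mem_univ w) hw) hfin with h1 | h1 |
    ⟨-, h1⟩
  · exact absurd h1 hnD
  · obtain ⟨r, hr, hr'⟩ := h.cl3 h1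
    by_cases hrp : r = p
    · subst hrp
      left
      refine ⟨fun v => ?_, hr⟩
      by_contra hcon
      push Not at hcon
      have h2 : v ≠ r := by rintro rfl; omega
      have h3 := hr' v h2
      have h4 := hp v
      unfold Inv at h3
      omega
    · by_cases hrq : r = q
      · subst hrq
        right; left
        refine ⟨fun v => ?_, hr⟩
        by_contra hcon
        push Not at hcon
        have h2 : v ≠ r := by rintro rfl; omega
        have h3 := hr' v h2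
        have h4 := hq v
        unfold Inv at h3
        omega
      · exfalso
        have h2 := hr' p (fun hh => hrp hh.symm)
        have h3 := hr' q (fun hh => hrq hh.symm)
        exact ((hAp r hrp hrq).mp h2) h3
  · right; right
    obtain ⟨b₁, a₁, a₂, b₂, ρ, ⟨s1, s2, s3, s4⟩, ⟨e1, e2, e3, e4, e5, e6, hbb⟩, hρ,
      ⟨r1, r2, r3, r4⟩, hhom, hfib⟩ := h1
    have hab : ∀ x y, s x = true → s y = false → x ≠ y := by
      rintro x y hx hy rfl
      rw [hx] at hy; cases hy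
    have hρρ : ∀ u, ρ (ρ u) = ρ u := by
      intro u
      rcases hρ u with hu | hu | hu | hu <;> rw [hu] <;> assumption
    -- a vertex in a fibre different from those of p and q sees exactly one of them
    have hone : ∀ v, ρ v ≠ ρ p → ρ v ≠ ρ q → (Inv d f (ρ v) (ρ p) ↔ ¬ Inv d f (ρ v) (ρ q)) := by
      intro v h2 h3
      rw [← hhom v p h2, ← hhom v q h3]
      exact hAp v (fun hh => h2 (by rw [hh])) (fun hh => h3 (by rw [hh]))
    have hnpq : ρ p ≠ ρ q := by
      intro hh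
      -- some representative outside
      have : ∃ v, ρ v ≠ ρ p := by
        by_cases h2 : ρ b₁ = ρ p
        · refine ⟨a₁, fun h3 => ?_⟩
          rw [r1] at h2
          rw [r2] at h3
          exact hab _ _ s1 s3 (h2.trans h3.symm)
        · exact ⟨b₁, h2⟩
      obtain ⟨v, hv⟩ := this
      have h2 := hone v hv (by rw [← hh]; exact hv)
      rw [hh] at h2
      tauto
    have hpq' : Inv d f (ρ p) (ρ q) := (hhom p q hnpq).mp hpqA
    have ea : a₁ ≠ a₂ := inv_ne e2
    have hcase : (ρ p = a₁ ∧ ρ q = a₂) ∨ (ρ p = a₂ ∧ ρ q = a₁) := by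
      have n1 := hab _ _ s1 s3
      have n2 := hab _ _ s1 s4
      have n3 := hab _ _ s2 s3
      have n4 := hab _ _ s2 s4
      have o1 : ρ b₁ ≠ ρ p → ρ b₁ ≠ ρ q → (Inv d f b₁ (ρ p) ↔ ¬ Inv d f b₁ (ρ q)) := by
        have := hone b₁
        rwa [r1] at this ⊢
      have o2 : ρ b₂ ≠ ρ p → ρ b₂ ≠ ρ q → (Inv d f b₂ (ρ p) ↔ ¬ Inv d f b₂ (ρ q)) := by
        have := hone b₂
        rwa [r4] at this ⊢
      rw [r1] at o1
      rw [r4] at o2
      have e1' := inv_symm e1
      have e3' := inv_symm e3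
      have e2' := inv_symm e2
      have e4' : ¬ Inv d f a₂ b₁ := fun hh => e4 (inv_symm hh)
      have e5' : ¬ Inv d f b₂ b₁ := fun hh => e5 (inv_symm hh)
      have e6' : ¬ Inv d f b₂ a₁ := fun hh => e6 (inv_symm hh)
      rcases hρ p with hP | hP | hP | hP <;> rcases hρ q with hQ' | hQ' | hQ' | hQ' <;>
        rw [hP, hQ'] at hpq' hnpq <;> rw [hP, hQ'] at o1 o2 <;>
        first
          | exact absurd rfl hnpq
          | exact Or.inl ⟨hP, hQ'⟩
          | exact Or.inr ⟨hP, hQ'⟩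
          | exact absurd hpq' e4
          | exact absurd hpq' e4'
          | exact absurd hpq' e5
          | exact absurd hpq' e5'
          | exact absurd hpq' e6
          | exact absurd hpq' e6'
          | exact absurd ((o2 hbb.symm n3.symm.symm).mpr e6') e5'
          | exact absurd ((o2 n3 hbb.symm).mpr e5') e6'
          | exact absurd ((o1 n2 hbb).mpr e5) e4
          | exact absurd ((o1 hbb n2).mpr e4) e5
    have hfix : ∀ x y, ρ x ≠ ρ y → Inv d f x y → (∀ v, v ≠ x → v ≠ y →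
        (Inv d f v x ↔ ¬ Inv d f v y)) → s (ρ x) = false → x = ρ x := by
      intro x y hxy hA hv hs
      by_contra hne
      have h2 := (hfib x hne).mpr hs
      have h3 : ρ x ≠ y := fun hh => hxy (by rw [← hh, hρρ x])
      have h4 := hv (ρ x) (fun hh => hne hh.symm) h3
      have h5 : Inv d f (ρ x) y := by
        rw [hhom (ρ x) y (by rw [hρρ x]; exact hxy), hρρ x, ← hhom x y hxy]
        exact hA
      exact (h4.mp (inv_symm h2)) h5
    have hsp : s (ρ p) = false := by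
      rcases hcase with h2 | h2
      · rw [h2.1]; exact s3
      · rw [h2.1]; exact s4
    have hsq : s (ρ q) = false := by
      rcases hcase with h2 | h2
      · rw [h2.2]; exact s4
      · rw [h2.2]; exact s3
    have fp := hfix p q hnpq hpqA hAp hsp
    have fq := hfix q p hnpq.symm (inv_symm hpqA) (fun v h1 h2 => by
      rw [hAp v h2 h1]; exact not_not.symm) hsq
    rw [fp, fq]
    exact ⟨hsp, hsq⟩

end Pool.Agent.GDW
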