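import Mathlib
import Pool.Agent.GDW.Ex

set_option autoImplicit false

namespace Pool.Agent.GDW

variable {P : Type}

/-- position after cutting the cyclic order of length `n` at position `z` -/
def cut (n z a : ℕ) : ℕ := if z ≤ a then a - z else a + n - z

/-- `m` is the position of a mark -/
def IsMark (n : ℕ) (g : P → ℕ) (m : ℕ) : Prop := m < n ∧ ∀ v, g v ≠ m

/-- `X` is the set of points of an unmarked arc -/
def Arc (n : ℕ) (g : P → ℕ) (X : Set P) : Prop :=
  ∃ m, IsMark n g m ∧ ∃ a b, ∀ i, (a ≤ i ∧ i ≤ b) ↔ ∃ x ∈ X, cut n m (g x) = i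

/-- A cyclic window without good sets: positions on the two circuits, both cut at the mark `0`. -/
structure CW (nD nF : ℕ) (d f : P → ℕ) (s : P → Bool) : Prop where
  dpos : ∀ v, 0 < d v ∧ d v < nD
  fpos : ∀ v, 0 < f v ∧ f v < nF
  dinj : Function.Injective d
  finj : Function.Injective f
  lf : ∀ m m', IsMark nD d m → IsMark nF f m' →
    LinFacts (fun v => cut nD m (d v)) (fun v => cut nF m' (f v)) s
  sep : ∀ X : Set P, 2 ≤ X.ncard → ¬ (Arc nD d X ∧ Arc nF f X)

/-- the marks lie in at least two different gaps -/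
def TwoGaps (n : ℕ) (g : P → ℕ) : Prop := ∃ m, IsMark n g m ∧ (∃ v, g v < m) ∧ ∃ v, m < g v

lemma cut_lt {n z a : ℕ} (hz : z < n) (ha : a < n) : cut n z a < n := by
  unfold cut; split_ifs <;> omega

lemma cut_inj {n z a b : ℕ} (hz : z < n) (ha : a < n) (hb : b < n) (h : cut n z a = cut n z b) :
    a = b := by
  unfold cut at h; split_ifs at h <;> omega

lemma cut_pos {n z a : ℕ} (hz : z < n) (hne : a ≠ z) : 0 < cut n z a := by
  unfold cut; split_ifs <;> omega

lemma cut_zero {n a : ℕ} : cut n 0 a = a := by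
  unfold cut; simp

/-- reversed mark -/
def rmark (n m : ℕ) : ℕ := if m = 0 then 0 else n - m

lemma cut_rev {n m a : ℕ} (hm : m < n) (ha0 : 0 < a) (ha : a < n) (hne : a ≠ m) :
    cut n (rmark n m) (n - a) = n - cut n m a := by
  unfold cut rmark; split_ifs <;> omega

lemma isMark_rev {n : ℕ} {g : P → ℕ} (hg : ∀ v, 0 < g v ∧ g v < n) {m : ℕ}
    (h : IsMark n (fun v => n - g v) m) : IsMark n g (rmark n m) := by
  refine ⟨?_, fun v => ?_⟩
  · have := h.1
    unfold rmark; split_ifs <;> omega
  · have h1 := h.2 v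
    have h2 := hg v
    have h3 := h.1
    dsimp only at h1
    unfold rmark; split_ifs <;> omega

lemma isMark_rev' {n : ℕ} {g : P → ℕ} (hg : ∀ v, 0 < g v ∧ g v < n) {m : ℕ}
    (h : IsMark n g m) : IsMark n (fun v => n - g v) (rmark n m) := by
  refine ⟨?_, fun v => ?_⟩
  · have := h.1
    unfold rmark; split_ifs <;> omega
  · have h1 := h.2 v
    have h2 := hg v
    have h3 := h.1
    dsimp only
    unfold rmark; split_ifs <;> omega

lemma rmark_rmark {n m : ℕ} (hm : m < n) : rmark n (rmark n m) = m := by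
  unfold rmark; split_ifs <;> omega

lemma arc_rev {n : ℕ} {g : P → ℕ} (hg : ∀ v, 0 < g v ∧ g v < n) {X : Set P} (hX : X.Nonempty)
    (h : Arc n (fun v => n - g v) X) : Arc n g X := by
  obtain ⟨m, hm, a, b, hab⟩ := h
  refine ⟨rmark n m, isMark_rev hg hm, n - b, n - a, fun i => ?_⟩
  have key : ∀ x : P, cut n (rmark n m) (g x) = n - cut n m (n - g x) := by
    intro x
    have h1 := hg x
    have h2 := hm.2 x
    have h3 := cut_rev (n := n) (m := m) (a := n - g x) hm.1 (by omega) (by omega) h2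
    rw [← h3]
    congr 1
    omega
  have hlt : ∀ x : P, cut n m (n - g x) < n := fun x =>
    cut_lt hm.1 (by have := hg x; omega)
  have hpos : ∀ x : P, 0 < cut n m (n - g x) := fun x => cut_pos hm.1 (hm.2 x)
  obtain ⟨x₀, hx₀⟩ := hX
  have hx₀' := (hab (cut n m (n - g x₀))).mpr ⟨x₀, hx₀, rfl⟩
  have hbn : b < n := by
    obtain ⟨x, hx, hx'⟩ := (hab b).mp ⟨by omega, le_rfl⟩
    have := hlt x
    dsimp only at hx'
    omega
  have han : 0 < a := by
    obtain ⟨x, hx, hx'⟩ := (hab a).mp ⟨le_rfl, by omega⟩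
    have := hpos x
    dsimp only at hx'
    omega
  constructor
  · rintro ⟨h1, h2⟩
    obtain ⟨x, hx, hx'⟩ := (hab (n - i)).mp ⟨by omega, by omega⟩
    refine ⟨x, hx, ?_⟩
    dsimp only at hx'
    rw [key, hx']
    omega
  · rintro ⟨x, hx, hx'⟩
    have h1 := (hab (cut n m (n - g x))).mpr ⟨x, hx, rfl⟩
    rw [key] at hx'
    omega

lemma CW.swap {nD nF : ℕ} {d f : P → ℕ} {s : P → Bool} (h : CW nD nF d f s) :
    CW nF nD f d s where
  dpos := h.fpos
  fpos := h.dpos
  dinj := h.finj
  finj := h.dinj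
  lf := fun m m' hm hm' => (h.lf m' m hm' hm).swap
  sep := fun X hX hh => h.sep X hX ⟨hh.2, hh.1⟩

lemma CW.revF {nD nF : ℕ} {d f : P → ℕ} {s : P → Bool} (h : CW nD nF d f s) :
    CW nD nF d (fun v => nF - f v) (fun v => !(s v)) where
  dpos := h.dpos
  fpos := fun v => by have := h.fpos v; omega
  dinj := h.dinj
  finj := fun u v huv => by
    have h1 := h.fpos u
    have h2 := h.fpos v
    dsimp only at huv
    exact h.finj (by omega)
  lf := by
    intro m m' hm hm'
    have h1 := isMark_rev h.fpos hm'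
    have h2 := h.lf m (rmark nF m') hm h1
    have h3 := h2.rev (N := nF)
      (fun u v huv => h.dinj (cut_inj hm.1 (h.dpos u).2 (h.dpos v).2 huv))
      (fun u v huv => h.finj (cut_inj h1.1 (h.fpos u).2 (h.fpos v).2 huv))
      (fun v => le_of_lt (cut_lt h1.1 (h.fpos v).2))
    have h4 : (fun v => nF - cut nF (rmark nF m') (f v)) = fun v => cut nF m' (nF - f v) := by
      funext v
      rw [← cut_rev h1.1 (h.fpos v).1 (h.fpos v).2 (h1.2 v), rmark_rmark hm'.1]
    rw [h4] at h3
    exact h3
  sep := fun X hX hh =>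
    h.sep X hX ⟨hh.1, arc_rev h.fpos (Set.nonempty_of_ncard_ne_zero (by omega)) hh.2⟩

lemma CW.revD {nD nF : ℕ} {d f : P → ℕ} {s : P → Bool} (h : CW nD nF d f s) :
    CW nD nF (fun v => nD - d v) f (fun v => !(s v)) := h.swap.revF.swap

lemma twoGaps_rev {n : ℕ} {g : P → ℕ} (hg : ∀ v, 0 < g v ∧ g v < n) (h : TwoGaps n g) :
    TwoGaps n (fun v => n - g v) := by
  obtain ⟨m, hm, ⟨v, hv⟩, w, hw⟩ := h
  have h1 := isMark_rev' hg hm
  have h2 := hg v
  have h3 := hg w
  have h4 : rmark n m = n - m := by unfold rmark; split_ifs <;> omega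
  rw [h4] at h1
  refine ⟨n - m, h1, ⟨w, ?_⟩, v, ?_⟩ <;> dsimp only <;> omega

/-- consecutive elements stay consecutive when the cut is outside -/
lemma cons_cut {n m : ℕ} {g : P → ℕ} {p q : P} (hm : IsMark n g m) (hg : ∀ v, g v < n)
    (hpq : g p < g q) (hc : Cons g p q) (hout : ¬ (g p < m ∧ m < g q)) :
    cut n m (g p) < cut n m (g q) ∧ Cons (fun v => cut n m (g v)) p q := by
  have hp := hg p
  have hq := hg q
  have h1 := hm.1
  have h2 := hm.2 p
  have h3 := hm.2 q
  refine ⟨?_, fun v => ?_⟩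
  · unfold cut; split_ifs <;> omega
  · have h4 := hc v
    have h5 := hg v
    have h6 := hm.2 v
    dsimp only
    unfold cut; split_ifs <;> omega

/-- the order of a consecutive pair is exchanged when the cut is inside -/
lemma cons_cut_in {n m : ℕ} {g : P → ℕ} {p q : P} (hm : IsMark n g m) (hg : ∀ v, g v < n)
    (hc : Cons g p q) (hin : g p < m ∧ m < g q) :
    (∀ v, cut n m (g q) ≤ cut n m (g v)) ∧ (∀ v, cut n m (g v) ≤ cut n m (g p)) := by
  have hp := hg p
  have hq := hg q
  have h1 := hm.1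
  constructor
  · intro v
    have h4 := hc v
    have h5 := hg v
    have h6 := hm.2 v
    unfold cut; split_ifs <;> omega
  · intro v
    have h4 := hc v
    have h5 := hg v
    have h6 := hm.2 v
    unfold cut; split_ifs <;> omega

/-- a digon exists at the base cut -/
theorem exists_digon [Finite P] {nD nF : ℕ} {d f : P → ℕ} {s : P → Bool} (h : CW nD nF d f s)
    (h2 : 2 ≤ (Set.univ : Set P).ncard) (hD : 0 < nD) (hF : 0 < nF) (hT : TwoGaps nF f) :
    ∃ p q, d p < d q ∧ Cons d p q ∧ ((f p < f q ∧ Cons f p q) ∨ (f q < f p ∧ Cons f q p)) := by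
  have m0 : IsMark nD d 0 := ⟨hD, fun v => by have := (h.dpos v).1; omega⟩
  have m0' : IsMark nF f 0 := ⟨hF, fun v => by have := (h.fpos v).1; omega⟩
  have h0 := h.lf 0 0 m0 m0'
  simp only [cut_zero] at h0
  rcases ex_lin h.dinj h.finj h0 h2 with h1 | h1
  · exact h1
  · exfalso
    obtain ⟨b₁, a₁, a₂, b₂, ⟨s1, s2, s3, s4⟩, hall, hpat⟩ := h1
    obtain ⟨m, hm, ⟨v, hv⟩, w, hw⟩ := hT
    have h3 := h.lf 0 m m0 hm
    simp only [cut_zero] at h3
    have c1 := h.fpos b₁
    have c2 := h.fpos a₁
    have c3 := h.fpos a₂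
    have c4 := h.fpos b₂
    have n1 := hm.2 b₁
    have n2 := hm.2 a₁
    have n3 := hm.2 a₂
    have n4 := hm.2 b₂
    have hmn := hm.1
    rcases hpat with ⟨hp1, hp2⟩ | ⟨hp1, hp2⟩
    · -- `b₁`, `b₂` are consecutive
      have hv' : f b₁ < m := by
        rcases hall v with e | e | e | e <;> subst e <;> omega
      have hw' : m < f b₂ := by
        rcases hall w with e | e | e | e <;> subst e <;> omega
      refine h3.ld1 b₁ b₂ (by omega) ?_ ?_ ?_ ⟨s1, s2⟩
      · unfold cut; split_ifs <;> omega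
      · intro u hu
        dsimp only at hu
        rcases hall u with e | e | e | e <;> subst e <;> omega
      · intro u hu
        dsimp only at hu
        rcases hall u with e | e | e | e <;> subst e <;> unfold cut at hu <;>
          split_ifs at hu <;> omega
    · have hv' : f a₁ < m := by
        rcases hall v with e | e | e | e <;> subst e <;> omega
      have hw' : m < f a₂ := by
        rcases hall w with e | e | e | e <;> subst e <;> omega
      refine h3.ld0 a₂ a₁ (by omega) ?_ ?_ ?_ ⟨s4, s3⟩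
      · unfold cut; split_ifs <;> omega
      · intro u hu
        dsimp only at hu
        rcases hall u with e | e | e | e <;> subst e <;> omega
      · intro u hu
        dsimp only at hu
        rcases hall u with e | e | e | e <;> subst e <;> unfold cut at hu <;>
          split_ifs at hu <;> omega

/-- the digon argument in cyclic form: the cut of `D` is inside the digon -/
theorem dg_cyc {nD nF : ℕ} {d f : P → ℕ} {s : P → Bool} (h : CW nD nF d f s)
    (h2 : 2 ≤ (Set.univ : Set P).ncard)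
    {p q : P} (hc : Cons d p q) {m : ℕ} (hm : IsMark nD d m) (hin : d p < m ∧ m < d q)
    (hf : f p < f q) (hcf : Cons f p q) {m' : ℕ} (hm' : IsMark nF f m')
    (hout : ¬ (f p < m' ∧ m' < f q)) (hs : ¬ (s p = false ∧ s q = false)) :
    ((∀ v, cut nF m' (f p) ≤ cut nF m' (f v)) ∧ s p = false) ∨
      ((∀ v, cut nF m' (f v) ≤ cut nF m' (f q)) ∧ s q = false) := by
  have h1 := cons_cut_in hm (fun v => (h.dpos v).2) hc hin
  have h3 := cons_cut hm' (fun v => (h.fpos v).2) hf hcf hout
  rcases dg_lin (fun u v huv => h.dinj (cut_inj hm.1 (h.dpos u).2 (h.dpos v).2 huv))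
    (fun u v huv => h.finj (cut_inj hm'.1 (h.fpos u).2 (h.fpos v).2 huv))
    (h.lf m m' hm hm') h2 h1.1 h1.2 h3.1 h3.2 with h4 | h4 | h4
  · exact Or.inl h4
  · exact Or.inr h4
  · exact absurd h4 hs

/-- if no mark lies between two consecutive points, their positions are consecutive -/
lemma succ_of_unmarked {n : ℕ} {g : P → ℕ} (hg : ∀ v, g v < n) {p q : P} (hpq : g p < g q)
    (hc : Cons g p q) (hno : ∀ m, IsMark n g m → ¬ (g p < m ∧ m < g q)) : g q = g p + 1 := by
  by_contra hne
  have h1 := hg q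
  refine hno (g p + 1) ⟨by omega, fun v hv => ?_⟩ ⟨by omega, by omega⟩
  exact hc v ⟨by omega, by omega⟩

lemma arc_pair {n : ℕ} {g : P → ℕ} {p q : P} (h0 : IsMark n g 0) (h : g q = g p + 1) :
    Arc n g {p, q} := by
  refine ⟨0, h0, g p, g q, fun i => ?_⟩
  simp only [cut_zero]
  constructor
  · rintro ⟨h1, h2⟩
    by_cases h3 : i = g p
    · exact ⟨p, Or.inl rfl, h3.symm⟩
    · exact ⟨q, Or.inr rfl, by omega⟩
  · rintro ⟨x, hx, hx'⟩
    rcases hx with hx | hx
    · subst hx; omega
    · have : x = q := hx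
      subst this; omega

/-- the remaining points form an unmarked arc -/
lemma arc_compl [Finite P] {n : ℕ} {g : P → ℕ} (hg : ∀ v, 0 < g v ∧ g v < n)
    (hinj : Function.Injective g) {p q : P}
    (hp : ∀ v, g p ≤ g v) (hc : Cons g p q) {m : ℕ} (hm : IsMark n g m)
    (hin : g p < m ∧ m < g q)
    (hall : ∀ m', IsMark n g m' → ¬ (g p < m' ∧ m' < g q) →
      ∀ v, cut n m' (g p) ≤ cut n m' (g v)) : Arc n g {p}ᶜ := by
  -- the last point
  have : Nonempty P := ⟨p⟩
  obtain ⟨l, hl⟩ := Finite.exists_max g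
  have hql : g q ≤ g l := hl q
  have hno : ∀ i, g q ≤ i → i ≤ g l → ∃ x, g x = i := by
    intro i h1 h2
    by_contra hcon
    push Not at hcon
    have hi : IsMark n g i := ⟨by have := (hg l).2; omega, hcon⟩
    have h3 := hall i hi (by omega) l
    have h4 : g l ≠ i := hcon l
    have h5 := (hg p).2
    have h6 := (hg l).2
    unfold cut at h3
    split_ifs at h3 <;> omega
  have h0 := hg p
  refine ⟨m, hm, g q - m, g l - m, fun i => ?_⟩
  constructor
  · rintro ⟨h1, h2⟩
    obtain ⟨x, hx⟩ := hno (i + m) (by omega) (by omega)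
    refine ⟨x, ?_, ?_⟩
    · intro hxp
      have : x = p := hxp
      subst this
      omega
    · unfold cut; split_ifs <;> omega
  · rintro ⟨x, hx, hx'⟩
    have hxp : x ≠ p := hx
    have h1 := hp x
    have h2 : g x ≠ g p := fun hh => hxp (hinj hh)
    have h3 := hc x
    have h4 := hl x
    unfold cut at hx'
    split_ifs at hx' <;> omega

/-- main step: a digon whose second point has sign `1` and whose gap on `D` is marked -/
theorem no_big [Finite P] {nD nF : ℕ} {d f : P → ℕ} {s : P → Bool} (h : CW nD nF d f s)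
    (h3 : 3 ≤ (Set.univ : Set P).ncard) (hD : 0 < nD) (hF : 0 < nF) (hTF : TwoGaps nF f)
    {p q : P} (hdpq : d p < d q) (hcd : Cons d p q) (hfpq : f p < f q) (hcf : Cons f p q)
    (hs : s q ≠ false) {m : ℕ} (hm : IsMark nD d m) (hin : d p < m ∧ m < d q) : False := by
  have h2 : 2 ≤ (Set.univ : Set P).ncard := by omega
  have hs' : ¬ (s p = false ∧ s q = false) := fun hh => hs hh.2
  have m0 : IsMark nD d 0 := ⟨hD, fun v => by have := (h.dpos v).1; omega⟩
  have m0' : IsMark nF f 0 := ⟨hF, fun v => by have := (h.fpos v).1; omega⟩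
  have hallF : ∀ m', IsMark nF f m' → ¬ (f p < m' ∧ m' < f q) →
      ∀ v, cut nF m' (f p) ≤ cut nF m' (f v) := by
    intro m' hm' hout
    rcases dg_cyc h h2 hcd hm hin hfpq hcf hm' hout hs' with h4 | h4
    · exact h4.1
    · exact absurd h4.2 hs
  have hpF : ∀ v, f p ≤ f v := by
    have := hallF 0 m0' (by omega)
    simpa only [cut_zero] using this
  obtain ⟨m', hm', ⟨v, hv⟩, w, hw⟩ := hTF
  have hin' : f p < m' ∧ m' < f q := by
    by_contra hout
    have h4 := hallF m' hm' hout w
    have h5 := hpF v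
    have h6 := (h.fpos w).2
    have h7 := hm'.1
    unfold cut at h4
    split_ifs at h4 <;> omega
  have hallD : ∀ m, IsMark nD d m → ¬ (d p < m ∧ m < d q) →
      ∀ v, cut nD m (d p) ≤ cut nD m (d v) := by
    intro m₁ hm₁ hout
    rcases dg_cyc h.swap h2 hcf hm' hin' hdpq hcd hm₁ hout hs' with h4 | h4
    · exact h4.1
    · exact absurd h4.2 hs
  have hpD : ∀ v, d p ≤ d v := by
    have := hallD 0 m0 (by omega)
    simpa only [cut_zero] using this
  refine h.sep {p}ᶜ ?_ ⟨arc_compl h.dpos h.dinj hpD hcd hm hin hallD,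
    arc_compl h.fpos h.finj hpF hcf hm' hin' hallF⟩
  have h5 := Set.ncard_add_ncard_compl ({p} : Set P)
  rw [Set.ncard_singleton] at h5
  rw [Set.ncard_univ] at h3
  omega

/-- (I), three or more points, with the digon oriented -/
theorem no_big' [Finite P] {nD nF : ℕ} {d f : P → ℕ} {s : P → Bool} (h : CW nD nF d f s)
    (h3 : 3 ≤ (Set.univ : Set P).ncard) (hD : 0 < nD) (hF : 0 < nF)
    (hTD : TwoGaps nD d) (hTF : TwoGaps nF f)
    {p q : P} (hdpq : d p < d q) (hcd : Cons d p q) (hfpq : f p < f q) (hcf : Cons f p q) :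
    False := by
  have m0 : IsMark nD d 0 := ⟨hD, fun v => by have := (h.dpos v).1; omega⟩
  have m0' : IsMark nF f 0 := ⟨hF, fun v => by have := (h.fpos v).1; omega⟩
  have hne : p ≠ q := by rintro rfl; omega
  have hs : ¬ (s p = false ∧ s q = false) := by
    have h0 := h.lf 0 0 m0 m0'
    simp only [cut_zero] at h0
    exact h0.ld0 p q hdpq hfpq hcd hcf
  -- core: one of the gaps is marked; the second point has sign one
  have core : ∀ {nD nF : ℕ} {d f : P → ℕ} {s : P → Bool} (h : CW nD nF d f s),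
      0 < nD → 0 < nF → TwoGaps nD d → TwoGaps nF f → ∀ {p q : P}, p ≠ q → d p < d q →
      Cons d p q → f p < f q → Cons f p q → s q ≠ false → False := by
    intro nD nF d f s h hD hF hTD hTF p q hne hdpq hcd hfpq hcf hs
    have m0 : IsMark nD d 0 := ⟨hD, fun v => by have := (h.dpos v).1; omega⟩
    have m0' : IsMark nF f 0 := ⟨hF, fun v => by have := (h.fpos v).1; omega⟩
    by_cases h4 : ∃ m, IsMark nD d m ∧ (d p < m ∧ m < d q)
    · obtain ⟨m, hm, hin⟩ := h4
      exact no_big h h3 hD hF hTF hdpq hcd hfpq hcf hs hm hin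
    · by_cases h5 : ∃ m, IsMark nF f m ∧ (f p < m ∧ m < f q)
      · obtain ⟨m, hm, hin⟩ := h5
        exact no_big h.swap h3 hF hD hTD hfpq hcf hdpq hcd hs hm hin
      · push Not at h4 h5
        have h6 := succ_of_unmarked (fun v => (h.dpos v).2) hdpq hcd
          (fun m hm hin => absurd (h4 m hm hin.1) (by omega))
        have h7 := succ_of_unmarked (fun v => (h.fpos v).2) hfpq hcf
          (fun m hm hin => absurd (h5 m hm hin.1) (by omega))
        exact h.sep {p, q} (by rw [Set.ncard_pair hne]) ⟨arc_pair m0 h6, arc_pair m0' h7⟩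
  by_cases hq : s q = false
  · -- reverse both orders
    have hp : s p ≠ false := fun hh => hs ⟨hh, hq⟩
    have hcons : ∀ {n : ℕ} {g : P → ℕ}, (∀ v, 0 < g v ∧ g v < n) → Cons g p q →
        Cons (fun v => n - g v) q p := by
      intro n g hg hc v hv
      have h1 := hg p
      have h2 := hg q
      have h3 := hg v
      dsimp only at hv
      exact hc v ⟨by omega, by omega⟩
    have d1 := h.dpos p
    have d2 := h.dpos q
    have f1 := h.fpos p
    have f2 := h.fpos q
    refine core h.revD.revF hD hF (twoGaps_rev h.dpos hTD) (twoGaps_rev h.fpos hTF)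
      (p := q) (q := p) hne.symm ?_ (hcons h.dpos hcd) ?_ (hcons h.fpos hcf) ?_
    · omega
    · omega
    · simpa using hp
  · exact core h hD hF hTD hTF hne hdpq hcd hfpq hcf hq

/-- (I): a window with two marked gaps on both circuits has exactly two points, of different
signs. -/
theorem window_I [Finite P] {nD nF : ℕ} {d f : P → ℕ} {s : P → Bool} (h : CW nD nF d f s)
    (h2 : 2 ≤ (Set.univ : Set P).ncard) (hD : 0 < nD) (hF : 0 < nF)
    (hTD : TwoGaps nD d) (hTF : TwoGaps nF f) :
    ∃ p q, p ≠ q ∧ (∀ v, v = p ∨ v = q) ∧ s p ≠ s q := by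
  by_cases h3 : 3 ≤ (Set.univ : Set P).ncard
  · exfalso
    obtain ⟨p, q, hdpq, hcd, hf⟩ := exists_digon h h2 hD hF hTF
    rcases hf with ⟨hfpq, hcf⟩ | ⟨hfpq, hcf⟩
    · exact no_big' h h3 hD hF hTD hTF hdpq hcd hfpq hcf
    · have f1 := h.fpos p
      have f2 := h.fpos q
      refine no_big' h.revF h3 hD hF hTD (twoGaps_rev h.fpos hTF) hdpq hcd ?_ ?_
      · omega
      · intro v hv
        have f3 := h.fpos v
        dsimp only at hv
        exact hcf v ⟨by omega, by omega⟩
  · have h4 : (Set.univ : Set P).ncard = 2 := by omega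
    obtain ⟨p, q, hpq, hall⟩ := Set.ncard_eq_two.mp h4
    have hall' : ∀ v, v = p ∨ v = q := by
      intro v
      have : v ∈ ({p, q} : Set P) := by rw [← hall]; exact Set.mem_univ v
      simpa using this
    have m0 : IsMark nD d 0 := ⟨hD, fun v => by have := (h.dpos v).1; omega⟩
    have m0' : IsMark nF f 0 := ⟨hF, fun v => by have := (h.fpos v).1; omega⟩
    obtain ⟨m, hm, ⟨v, hv⟩, w, hw⟩ := hTF
    have h0 := h.lf 0 0 m0 m0'
    have h1 := h.lf 0 m m0 hm
    simp only [cut_zero] at h0 h1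
    have hmn := hm.1
    have key : ∀ p q, p ≠ q → (∀ v, v = p ∨ v = q) → d p < d q → s p ≠ s q := by
      intro p q hpq hall' hd hs
      have hcon : ∀ g : P → ℕ, Cons g p q := by
        intro g v hv
        rcases hall' v with e | e <;> subst e <;> omega
      have hcon' : ∀ g : P → ℕ, Cons g q p := by
        intro g v hv
        rcases hall' v with e | e <;> subst e <;> omega
      have hne : f p ≠ f q := fun hh => hpq (h.finj hh)
      have f1 := h.fpos p
      have f2 := h.fpos q
      have hin : (f p < m ∧ m < f q) ∨ (f q < m ∧ m < f p) := by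
        rcases hall' v with e | e <;> rcases hall' w with e' | e' <;> subst e <;> subst e' <;>
          omega
      rcases Nat.lt_or_gt_of_ne hne with h5 | h5
      · have h6 : cut nF m (f q) < cut nF m (f p) := by
          unfold cut; split_ifs <;> omega
        by_cases hsp : s p = false
        · exact h0.ld0 p q hd h5 (hcon _) (hcon _) ⟨hsp, by rw [← hs]; exact hsp⟩
        · have hsp' : s p = true := by simpa using hsp
          exact h1.ld1 p q hd h6 (hcon _) (hcon' _) ⟨hsp', by rw [← hs]; exact hsp'⟩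
      · have h6 : cut nF m (f p) < cut nF m (f q) := by
          unfold cut; split_ifs <;> omega
        by_cases hsp : s p = false
        · exact h1.ld0 p q hd h6 (hcon _) (hcon _) ⟨hsp, by rw [← hs]; exact hsp⟩
        · have hsp' : s p = true := by simpa using hsp
          exact h0.ld1 p q hd h5 (hcon _) (hcon' _) ⟨hsp', by rw [← hs]; exact hsp'⟩
    have hne : d p ≠ d q := fun hh => hpq (h.dinj hh)
    rcases Nat.lt_or_gt_of_ne hne with h5 | h5
    · exact ⟨p, q, hpq, hall', key p q hpq hall' h5⟩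
    · exact ⟨q, p, hpq.symm, fun v => (hall' v).symm, key q p hpq.symm (fun v => (hall' v).symm) h5⟩

/-- (II), oriented version -/
theorem window_II_aux [Finite P] {nD nF : ℕ} {d f : P → ℕ} {s : P → Bool} (h : CW nD nF d f s)
    (h2 : 2 ≤ (Set.univ : Set P).ncard) (hD : 0 < nD) (hF : 0 < nF)
    (hmD : ∀ m, IsMark nD d m → m = 0) {w : ℕ} (hw : IsMark nF f w)
    (hmF : ∀ m, IsMark nF f m → m = 0 ∨ m = w)
    {p q : P} (hdpq : d p < d q) (hcd : Cons d p q) (hfpq : f p < f q) (hcf : Cons f p q) :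
    (d p = 1 ∧ d q = 2 ∧ f p + 1 = w ∧ f q = w + 1 ∧ s p = false ∧ s q = true) ∨
    (d q + 1 = nD ∧ d p + 2 = nD ∧ f p + 1 = w ∧ f q = w + 1 ∧ s q = false ∧ s p = true) := by
  have m0 : IsMark nD d 0 := ⟨hD, fun v => by have := (h.dpos v).1; omega⟩
  have m0' : IsMark nF f 0 := ⟨hF, fun v => by have := (h.fpos v).1; omega⟩
  have hne : p ≠ q := by rintro rfl; omega
  have hs : ¬ (s p = false ∧ s q = false) := by
    have h0 := h.lf 0 0 m0 m0'
    simp only [cut_zero] at h0
    exact h0.ld0 p q hdpq hfpq hcd hcf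
  have h6 := succ_of_unmarked (fun v => (h.dpos v).2) hdpq hcd
    (fun m hm hin => by have := hmD m hm; omega)
  have hin : f p < w ∧ w < f q := by
    by_contra hout
    have h7 := succ_of_unmarked (fun v => (h.fpos v).2) hfpq hcf
      (fun m hm hin => by
        rcases hmF m hm with e | e
        · omega
        · subst e; exact hout hin)
    exact h.sep {p, q} (by rw [Set.ncard_pair hne]) ⟨arc_pair m0 h6, arc_pair m0' h7⟩
  have hfq := (h.fpos q).2
  have e1 : f p + 1 = w := by
    by_contra hcon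
    have : IsMark nF f (f p + 1) := ⟨by omega, fun v hv => hcf v ⟨by omega, by omega⟩⟩
    rcases hmF _ this with e | e <;> omega
  have e2 : f q = w + 1 := by
    by_contra hcon
    have : IsMark nF f (w + 1) := ⟨by omega, fun v hv => hcf v ⟨by omega, by omega⟩⟩
    rcases hmF _ this with e | e <;> omega
  have hdp := h.dpos p
  have hdq := h.dpos q
  rcases dg_cyc h.swap h2 hcf hw hin hdpq hcd m0 (by omega) hs with h4 | h4
  · left
    have h5 := h4.1
    simp only [cut_zero] at h5
    have e3 : d p = 1 := by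
      by_contra hcon
      have : IsMark nD d 1 := ⟨by omega, fun v hv => by have := h5 v; omega⟩
      have := hmD 1 this
      omega
    have hsq : s q = true := by
      by_contra hh
      exact hs ⟨h4.2, by simpa using hh⟩
    exact ⟨e3, by omega, e1, e2, h4.2, hsq⟩
  · right
    have h5 := h4.1
    simp only [cut_zero] at h5
    have e3 : d q + 1 = nD := by
      by_contra hcon
      have : IsMark nD d (d q + 1) := ⟨by omega, fun v hv => by have := h5 v; omega⟩
      have := hmD _ this
      omega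
    have hsp : s p = true := by
      by_contra hh
      exact hs ⟨by simpa using hh, h4.2⟩
    exact ⟨e3, by omega, e1, e2, h4.2, hsp⟩

/-- (II): the end window.  `D` has the single mark `0`, `F` has exactly the two marks `0`, `w`.
Then there are points `p`, `q` such that the mark of `D`, `p`, `q` are consecutive on `D`, the mark
`w` lies between `p` and `q` on `F`; the signs are as stated. -/
theorem window_II [Finite P] {nD nF : ℕ} {d f : P → ℕ} {s : P → Bool} (h : CW nD nF d f s)
    (h2 : 2 ≤ (Set.univ : Set P).ncard) (hD : 0 < nD) (hF : 0 < nF)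
    (hmD : ∀ m, IsMark nD d m → m = 0) {w : ℕ} (hw : IsMark nF f w)
    (hw1 : ∃ v, f v < w) (hw2 : ∃ v, w < f v)
    (hmF : ∀ m, IsMark nF f m → m = 0 ∨ m = w) :
    ∃ p q, s q = !(s p) ∧
      (((d p = 1 ∧ d q = 2) ∧ ((f p + 1 = w ∧ f q = w + 1 ∧ s p = false) ∨
        (f q + 1 = w ∧ f p = w + 1 ∧ s p = true))) ∨
      ((d p + 1 = nD ∧ d q + 2 = nD) ∧ ((f p + 1 = w ∧ f q = w + 1 ∧ s p = true) ∨
        (f q + 1 = w ∧ f p = w + 1 ∧ s p = false)))) := by
  have hT : TwoGaps nF f := ⟨w, hw, hw1, hw2⟩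
  obtain ⟨p, q, hdpq, hcd, hf⟩ := exists_digon h h2 hD hF hT
  rcases hf with ⟨hfpq, hcf⟩ | ⟨hfpq, hcf⟩
  · rcases window_II_aux h h2 hD hF hmD hw hmF hdpq hcd hfpq hcf with
      ⟨a1, a2, a3, a4, a5, a6⟩ | ⟨a1, a2, a3, a4, a5, a6⟩
    · exact ⟨p, q, by rw [a5, a6]; rfl, Or.inl ⟨⟨a1, a2⟩, Or.inl ⟨a3, a4, a5⟩⟩⟩
    · exact ⟨q, p, by rw [a5, a6]; rfl, Or.inr ⟨⟨a1, a2⟩, Or.inr ⟨a3, a4, a5⟩⟩⟩
  · have f1 := h.fpos p
    have f2 := h.fpos q
    have hw0 : w ≠ 0 := by rintro rfl; obtain ⟨v, hv⟩ := hw1; omega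
    have hwn := hw.1
    have hrw : rmark nF w = nF - w := by unfold rmark; rw [if_neg hw0]
    have h3 := window_II_aux h.revF h2 hD hF hmD (w := nF - w)
      (by rw [← hrw]; exact isMark_rev' h.fpos hw)
      (by
        intro m hm
        have h4 := isMark_rev h.fpos hm
        have h5 := hm.1
        rcases hmF _ h4 with e | e <;> unfold rmark at e <;> split_ifs at e <;> omega)
      (p := p) (q := q) hdpq hcd (by omega)
      (by
        intro v hv
        have f3 := h.fpos v
        dsimp only at hv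
        exact hcf v ⟨by omega, by omega⟩)
    rcases h3 with ⟨a1, a2, a3, a4, a5, a6⟩ | ⟨a1, a2, a3, a4, a5, a6⟩
    · have b5 : s p = true := by simpa using a5
      have b6 : s q = false := by simpa using a6
      refine ⟨p, q, by rw [b5, b6]; rfl, Or.inl ⟨⟨a1, a2⟩, Or.inr ⟨by omega, by omega, b5⟩⟩⟩
    · have b5 : s q = true := by simpa using a5
      have b6 : s p = false := by simpa using a6
      refine ⟨q, p, by rw [b5, b6]; rfl, Or.inr ⟨⟨a1, a2⟩, Or.inl ⟨by omega, by omega, b5⟩⟩⟩

end Pool.Agent.GDW
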