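import Mathlib
import Pool.Agent.GD.TDefs
import Pool.Agent.GDW.Cyc

set_option autoImplicit false

namespace Pool.Agent.GDW

open Pool.Agent

variable {V Z : Type}

/-- the data at one cut: positions of the vertices of `W` on the two trails, the inversion graph
and the observers (marks) -/
structure CutData (G : SimpleGraph V) (W : Set V) (e : V → Z → Prop) (d f : V → ℕ) : Prop where
  dinj : Set.InjOn d W
  finj : Set.InjOn f W
  adj : ∀ u ∈ W, ∀ v ∈ W, (G.Adj u v ↔ Inv d f u v)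
  obs : ∀ y, (∃ m, (∀ v ∈ W, d v ≠ m) ∧ ∀ v ∈ W, (e v y ↔ d v < m)) ∨
    (∃ m, (∀ v ∈ W, f v ≠ m) ∧ ∀ v ∈ W, (e v y ↔ f v < m))

lemma even_pair {V : Type} {p q : V} (hpq : p ≠ q) {R : V → Prop} (h : R p ↔ R q) :
    Even {j ∈ ({p, q} : Set V) | R j}.ncard := by
  by_cases hp : R p
  · have : {j ∈ ({p, q} : Set V) | R j} = {p, q} := by
      ext j
      simp only [Set.mem_insert_iff, Set.mem_singleton_iff, Set.mem_ofPred_eq]
      constructor
      · exact fun hj => hj.1
      · rintro (hj | hj)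
        · exact ⟨Or.inl hj, hj ▸ hp⟩
        · exact ⟨Or.inr hj, hj ▸ (h.mp hp)⟩
    rw [this, Set.ncard_pair hpq]
    exact even_two
  · have : {j ∈ ({p, q} : Set V) | R j} = ∅ := by
      ext j
      simp only [Set.mem_insert_iff, Set.mem_singleton_iff, Set.mem_ofPred_eq,
        Set.mem_empty_iff_false, iff_false]
      rintro ⟨hj | hj, hR⟩
      · exact hp (hj ▸ hR)
      · exact hp (h.mpr (hj ▸ hR))
    rw [this, Set.ncard_empty]
    exact Even.zero

/-- the common part of the two digon lemmas -/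
lemma digon_good [Finite V] {G : SimpleGraph V} {W : Set V} {e : V → Z → Prop} {d f : V → ℕ}
    (s : V → Prop) (hC : CutData G W e d f) (hsep : GD.Sep G W e)
    {p q : V} (hp : p ∈ W) (hq : q ∈ W) (hpq : p ≠ q) (hd : d p < d q)
    (hcd : ∀ v ∈ W, ¬ (d p < d v ∧ d v < d q))
    (hcf : ∀ v ∈ W, ¬ (f p < f v ∧ f v < f q) ∧ ¬ (f q < f v ∧ f v < f p))
    (hs : (s p ↔ G.Adj p q) ∧ (s q ↔ G.Adj p q)) (K : Set V) :
    ¬ GD.Det G s W e {p, q} K := by
  rintro ⟨⟨k₀, hk₀⟩, hKW, hK⟩
  have hApq : G.Adj p q ↔ f q < f p := by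
    rw [hC.adj p hp q hq]
    unfold Inv
    omega
  have hfne : f p ≠ f q := fun h => hpq (hC.finj hp hq h)
  -- facts about `k`
  have hk : ∀ k ∈ K, k ∈ W ∧ k ≠ p ∧ k ≠ q ∧ (G.Adj k p ↔ G.Adj p q) ∧ (G.Adj k q ↔ G.Adj p q) ∧
      (∀ y ∈ W, y ∉ K → y ≠ p → y ≠ q → (G.Adj k y ↔ G.Adj p y)) ∧
      (∀ y, (e p y ↔ e q y) → (e k y ↔ e p y)) := by
    intro k hkK
    obtain ⟨j, ⟨hj, hkJ, hkj, hki⟩, hub, hobs⟩ := hK k hkK
    have hkp : k ≠ p := fun h => hkJ (by simp [h])
    have hkq : k ≠ q := fun h => hkJ (by simp [h])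
    have hhub : ∀ y ∈ W, y ≠ p → y ≠ q → (G.Adj y p ↔ G.Adj y q) := by
      intro y hy h1 h2
      rw [hC.adj y hy p hp, hC.adj y hy q hq]
      have a1 : d y ≠ d p := fun h => h1 (hC.dinj hy hp h)
      have a2 : d y ≠ d q := fun h => h2 (hC.dinj hy hq h)
      have a3 : f y ≠ f p := fun h => h1 (hC.finj hy hp h)
      have a4 : f y ≠ f q := fun h => h2 (hC.finj hy hq h)
      have a5 := hcd y hy
      have a6 := hcf y hy
      unfold Inv
      omega
    have hH : ∀ y ∈ W, y ≠ p → y ≠ q → GD.Hub G {p, q} y := by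
      intro y hy h1 h2
      exact ⟨by simp [h1, h2], even_pair hpq (hhub y hy h1 h2)⟩
    rcases hj with hj | hj
    · subst hj
      refine ⟨hKW hkK, hkp, hkq, hkj.trans hs.1, hki q (by simp) hpq.symm, ?_, ?_⟩
      · intro y hy hyK h1 h2
        exact hub y hy hyK (hH y hy h1 h2)
      · intro y hy
        exact hobs y (even_pair hpq hy)
    · have hj' : j = q := hj
      subst hj'
      refine ⟨hKW hkK, hkp, hkq, ?_, hkj.trans hs.2, ?_, ?_⟩
      · rw [hki p (by simp) hpq]
        exact G.adj_comm j p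
      · intro y hy hyK h1 h2
        rw [hub y hy hyK (hH y hy h1 h2), G.adj_comm j y, G.adj_comm p y]
        exact (hhub y hy h1 h2).symm
      · intro y hy
        rw [hobs y (even_pair hpq hy)]
        exact hy.symm
  -- two cases: `k` before `p` or after `q`
  have hpos : ∀ k ∈ K, (d k < d p ∧ (G.Adj p q → f p < f k) ∧ (¬ G.Adj p q → f k < f p)) ∨
      (d q < d k ∧ (G.Adj p q → f k < f q) ∧ (¬ G.Adj p q → f q < f k)) := by
    intro k hkK
    obtain ⟨hkW, h1, h2, h3, h4, -, -⟩ := hk k hkK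
    have a1 : d k ≠ d p := fun h => h1 (hC.dinj hkW hp h)
    have a2 : d k ≠ d q := fun h => h2 (hC.dinj hkW hq h)
    have a3 : f k ≠ f p := fun h => h1 (hC.finj hkW hp h)
    have a4 : f k ≠ f q := fun h => h2 (hC.finj hkW hq h)
    have a5 := hcd k hkW
    rw [hC.adj k hkW p hp] at h3
    rw [hC.adj k hkW q hq] at h4
    by_cases hA : G.Adj p q
    · simp only [hA, iff_true, not_true_eq_false, false_implies, true_implies, and_true] at *
      unfold Inv at h3 h4
      omega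
    · simp only [hA, iff_false, not_false_eq_true, false_implies, true_implies, true_and] at *
      unfold Inv at h3 h4
      omega
  -- a set of `k`'s on one side together with the end is an unsplit module
  have main : ∀ r, (r = p ∨ r = q) → ∀ U : Set V, (∀ u, u ∈ U ↔ u = r ∨ (u ∈ K ∧
      ((r = p ∧ d u < d p) ∨ (r = q ∧ d q < d u)))) → (∃ k ∈ K, k ∈ U) → False := by
    rintro r hr U hU ⟨k₁, hk₁, hk₁U⟩
    have hrW : r ∈ W := by rcases hr with h | h <;> rw [h] <;> assumption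
    have hUW : U ⊆ W := by
      intro u hu
      rcases (hU u).mp hu with h | h
      · rw [h]; exact hrW
      · exact hKW h.1
    have hrU : r ∈ U := (hU r).mpr (Or.inl rfl)
    have hrK : k₁ ≠ r := by
      obtain ⟨-, h1, h2, -⟩ := hk k₁ hk₁
      rcases hr with h | h <;> rw [h] <;> assumption
    have hAr : ∀ w ∈ W, w ∉ U → ∀ u ∈ U, (G.Adj w u ↔ G.Adj w r) := by
      intro w hw hwU u hu
      rcases (hU u).mp hu with h | ⟨huK, hside⟩
      · rw [h]
      · obtain ⟨huW, h1, h2, h3, h4, h5, -⟩ := hk u huK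
        by_cases hwK : w ∈ K
        · -- on the other side
          have hw1 := hpos w hwK
          have hu1 := hpos u huK
          have hnot : ¬ ((r = p ∧ d w < d p) ∨ (r = q ∧ d q < d w)) :=
            fun h => hwU ((hU w).mpr (Or.inr ⟨hwK, h⟩))
          obtain ⟨-, w1, w2, w3, w4, -, -⟩ := hk w hwK
          have e1 : G.Adj w r ↔ G.Adj p q := by
            rcases hr with h | h <;> rw [h] <;> assumption
          rw [e1, hC.adj w hw u huW]
          by_cases hA : G.Adj p q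
          · have hA' := hApq.mp hA
            simp only [hA, not_true_eq_false, false_implies, true_implies, and_true,
              iff_true] at *
            unfold Inv
            rcases hr with h | h
            · subst h
              simp only [true_and, hpq, false_and, or_false] at hside hnot
              omega
            · subst h
              simp only [true_and, hpq.symm, false_and, false_or] at hside hnot
              omega
          · have hA' : ¬ f q < f p := fun h => hA (hApq.mpr h)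
            simp only [hA, not_false_eq_true, false_implies, true_implies, true_and,
              iff_false] at *
            unfold Inv
            rcases hr with h | h
            · subst h
              simp only [true_and, hpq, false_and, or_false] at hside hnot
              omega
            · subst h
              simp only [true_and, hpq.symm, false_and, false_or] at hside hnot
              omega
        · by_cases hwp : w = p
          · subst hwp
            have hrq : r = q := by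
              rcases hr with h | h
              · exact absurd (h ▸ hrU) hwU
              · exact h
            rw [hrq, G.adj_comm, h3]
          · by_cases hwq : w = q
            · subst hwq
              have hrp : r = p := by
                rcases hr with h | h
                · exact h
                · exact absurd (h ▸ hrU) hwU
              rw [hrp, G.adj_comm, h4, G.adj_comm]
            · have h6 := h5 w hw hwK hwp hwq
              rw [G.adj_comm w u, h6, G.adj_comm w r]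
              rcases hr with h | h
              · rw [h]
              · rw [h, hC.adj p hp w hw, hC.adj q hq w hw]
                have a1 : d w ≠ d p := fun h => hwp (hC.dinj hw hp h)
                have a2 : d w ≠ d q := fun h => hwq (hC.dinj hw hq h)
                have a3 : f w ≠ f p := fun h => hwp (hC.finj hw hp h)
                have a4 : f w ≠ f q := fun h => hwq (hC.finj hw hq h)
                have a5 := hcd w hw
                have a6 := hcf w hw
                unfold Inv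
                omega
    have hmod : GD.IsMod G W U := by
      refine ⟨hUW, fun w hw hwU => ?_⟩
      by_cases h : G.Adj w r
      · exact Or.inl fun u hu => (hAr w hw hwU u hu).mpr h
      · exact Or.inr fun u hu h' => h ((hAr w hw hwU u hu).mp h')
    have hcard : 2 ≤ U.ncard := by
      have hsub : ({k₁, r} : Set V) ⊆ U := by
        rintro v (hv | hv)
        · rw [hv]; exact hk₁U
        · rw [hv]; exact hrU
      calc 2 = ({k₁, r} : Set V).ncard := (Set.ncard_pair hrK).symm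
        _ ≤ _ := Set.ncard_le_ncard hsub
    have hobs : ∀ y, ∀ u ∈ U, (e u y ↔ e r y) := by
      intro y u hu
      rcases (hU u).mp hu with h | ⟨huK, hside⟩
      · rw [h]
      · obtain ⟨huW, h1, h2, h3, h4, -, h5⟩ := hk u huK
        have hu1 := hpos u huK
        by_cases hpqy : (e p y ↔ e q y)
        · rw [h5 y hpqy]
          rcases hr with h | h
          · rw [h]
          · rw [h]; exact hpqy
        · rcases hC.obs y with ⟨m, hm, hm'⟩ | ⟨m, hm, hm'⟩
          · rw [hm' p hp, hm' q hq] at hpqy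
            rw [hm' u huW, hm' r hrW]
            have n1 := hm u huW
            have n2 := hm p hp
            have n3 := hm q hq
            rcases hr with h | h
            · subst h
              simp only [true_and, hpq, false_and, or_false] at hside
              omega
            · subst h
              simp only [true_and, hpq.symm, false_and, false_or] at hside
              omega
          · rw [hm' p hp, hm' q hq] at hpqy
            rw [hm' u huW, hm' r hrW]
            have n1 := hm u huW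
            have n2 := hm p hp
            have n3 := hm q hq
            by_cases hA : G.Adj p q
            · have hA' := hApq.mp hA
              simp only [hA, not_true_eq_false, false_implies, true_implies, and_true] at hu1
              rcases hr with h | h
              · subst h
                simp only [true_and, hpq, false_and, or_false] at hside
                omega
              · subst h
                simp only [true_and, hpq.symm, false_and, false_or] at hside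
                omega
            · have hA' : ¬ f q < f p := fun h => hA (hApq.mpr h)
              simp only [hA, not_false_eq_true, false_implies, true_implies, true_and] at hu1
              rcases hr with h | h
              · subst h
                simp only [true_and, hpq, false_and, or_false] at hside
                omega
              · subst h
                simp only [true_and, hpq.symm, false_and, false_or] at hside
                omega
    obtain ⟨y, u, hu, u', hu', h1, h2⟩ := hsep U hmod hcard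
    exact h2 ((hobs y u' hu').mpr ((hobs y u hu).mp h1))
  rcases hpos k₀ hk₀ with h | h
  · exact main p (Or.inl rfl) {u | u = p ∨ (u ∈ K ∧ ((p = p ∧ d u < d p) ∨ (p = q ∧ d q < d u)))}
      (fun u => Iff.rfl) ⟨k₀, hk₀, Or.inr ⟨hk₀, Or.inl ⟨rfl, h.1⟩⟩⟩
  · exact main q (Or.inr rfl) {u | u = q ∨ (u ∈ K ∧ ((q = p ∧ d u < d p) ∨ (q = q ∧ d q < d u)))}
      (fun u => Iff.rfl) ⟨k₀, hk₀, Or.inr ⟨hk₀, Or.inr ⟨rfl, h.1⟩⟩⟩

/-- transfer of `Disc` -/
lemma disc_image {G : SimpleGraph V} {W : Set V} {e : V → Z → Prop} {d f : V → ℕ}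
    (hC : CutData G W e d f) {Q : Set W} :
    GD.Disc G (Subtype.val '' Q) ↔ Disc (Inv (fun v : W => d v) (fun v : W => f v)) Q := by
  constructor
  · rintro ⟨X, hXQ, ⟨x₀, hx₀⟩, ⟨y₀, hy₀⟩, hXY⟩
    refine ⟨{v | v ∈ Q ∧ (v : V) ∈ X}, {v | v ∈ Q ∧ (v : V) ∉ X}, ?_, ?_, ?_, ?_⟩
    · obtain ⟨v, hv, rfl⟩ := hXQ hx₀
      exact ⟨v, hv, hx₀⟩
    · obtain ⟨v, hv, rfl⟩ := hy₀.1
      exact ⟨v, hv, hy₀.2⟩
    · intro z
      simp only [Set.mem_ofPred_eq]
      tauto
    · rintro x ⟨hx, hxX⟩ y ⟨hy, hyX⟩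
      refine ⟨fun h => hyX (h ▸ hxX), fun h => ?_⟩
      exact hXY x hxX y ⟨⟨y, hy, rfl⟩, hyX⟩ ((hC.adj x x.2 y y.2).mpr h)
  · rintro ⟨X, Y, ⟨x₀, hx₀⟩, ⟨y₀, hy₀⟩, hQ, hXY⟩
    refine ⟨Subtype.val '' X, ?_, ⟨x₀, ⟨x₀, hx₀, rfl⟩⟩, ⟨y₀, ⟨y₀, (hQ y₀).mpr (Or.inr hy₀), rfl⟩,
      ?_⟩, ?_⟩
    · rintro _ ⟨x, hx, rfl⟩
      exact ⟨x, (hQ x).mpr (Or.inl hx), rfl⟩
    · rintro ⟨x, hx, hxy⟩
      exact (hXY x hx y₀ hy₀).1 (Subtype.ext hxy)
    · rintro _ ⟨x, hx, rfl⟩ _ ⟨⟨y, hy, rfl⟩, hyX⟩ hadj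
      have hyY : y ∈ Y := by
        rcases (hQ y).mp hy with h | h
        · exact absurd ⟨y, h, rfl⟩ hyX
        · exact h
      exact (hXY x hx y hyY).2 ((hC.adj x x.2 y y.2).mp hadj)

/-- transfer of `CoDisc` -/
lemma codisc_image {G : SimpleGraph V} {W : Set V} {e : V → Z → Prop} {d f : V → ℕ}
    (hC : CutData G W e d f) {Q : Set W} :
    GD.CoDisc G (Subtype.val '' Q) ↔ CoDisc (Inv (fun v : W => d v) (fun v : W => f v)) Q := by
  constructor
  · rintro ⟨X, hXQ, ⟨x₀, hx₀⟩, ⟨y₀, hy₀⟩, hXY⟩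
    refine ⟨{v | v ∈ Q ∧ (v : V) ∈ X}, {v | v ∈ Q ∧ (v : V) ∉ X}, ?_, ?_, ?_, ?_⟩
    · obtain ⟨v, hv, rfl⟩ := hXQ hx₀
      exact ⟨v, hv, hx₀⟩
    · obtain ⟨v, hv, rfl⟩ := hy₀.1
      exact ⟨v, hv, hy₀.2⟩
    · intro z
      simp only [Set.mem_ofPred_eq]
      tauto
    · rintro x ⟨hx, hxX⟩ y ⟨hy, hyX⟩
      refine ⟨fun h => hyX (h ▸ hxX), ?_⟩
      exact (hC.adj x x.2 y y.2).mp (hXY x hxX y ⟨⟨y, hy, rfl⟩, hyX⟩)
  · rintro ⟨X, Y, ⟨x₀, hx₀⟩, ⟨y₀, hy₀⟩, hQ, hXY⟩
    refine ⟨Subtype.val '' X, ?_, ⟨x₀, ⟨x₀, hx₀, rfl⟩⟩, ⟨y₀, ⟨y₀, (hQ y₀).mpr (Or.inr hy₀), rfl⟩,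
      ?_⟩, ?_⟩
    · rintro _ ⟨x, hx, rfl⟩
      exact ⟨x, (hQ x).mpr (Or.inl hx), rfl⟩
    · rintro ⟨x, hx, hxy⟩
      exact (hXY x hx y₀ hy₀).1 (Subtype.ext hxy)
    · rintro _ ⟨x, hx, rfl⟩ _ ⟨⟨y, hy, rfl⟩, hyX⟩
      have hyY : y ∈ Y := by
        rcases (hQ y).mp hy with h | h
        · exact absurd ⟨y, h, rfl⟩ hyX
        · exact h
      exact (hC.adj x x.2 y y.2).mpr (hXY x hx y hyY).2

/-- transfer of modules -/
lemma isMod_image {G : SimpleGraph V} {W : Set V} {e : V → Z → Prop} {d f : V → ℕ}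
    (hC : CutData G W e d f) {Q : Set W}
    (hQ : IsMod (Inv (fun v : W => d v) (fun v : W => f v)) Q) :
    GD.IsMod G W (Subtype.val '' Q) := by
  refine ⟨?_, fun w hw hwQ => ?_⟩
  · rintro _ ⟨x, -, rfl⟩
    exact x.2
  · have hwQ' : (⟨w, hw⟩ : W) ∉ Q := fun h => hwQ ⟨_, h, rfl⟩
    by_cases h : ∃ u ∈ Q, G.Adj w u
    · obtain ⟨u, hu, hwu⟩ := h
      left
      rintro _ ⟨v, hv, rfl⟩
      rw [hC.adj w hw v v.2]
      exact (hQ u hu v hv ⟨w, hw⟩ hwQ').mp ((hC.adj w hw u u.2).mp hwu)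
    · right
      rintro _ ⟨v, hv, rfl⟩ hadj
      exact h ⟨v, hv, hadj⟩

/-- transfer of the exceptional structure -/
lemma exc_image {G : SimpleGraph V} {W : Set V} {e : V → Z → Prop} {d f : V → ℕ}
    (hC : CutData G W e d f) {s : V → Prop} [DecidablePred s] (h : GD.Exc G s W) :
    EXC (Inv (fun v : W => d v) (fun v : W => f v)) (fun v : W => decide (s v)) := by
  obtain ⟨b1, a1, a2, b2, ρ, hJ, s1, s2, s3, s4, hbb, haa, e1, e2, e3, e4, e5, e6, hρ, r1, r2, r3,
    r4, hhom, hfib⟩ := h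
  have hJW : ∀ x ∈ ({b1, a1, a2, b2} : Set V), x ∈ W := by
    obtain ⟨b1', a1', a2', b2', h1, h2, h3, h4, -, -, -, -, -, -, -, -, -, -, -, -, hJ'⟩ := hJ
    intro x hx
    rw [hJ'] at hx
    rcases hx with h | h | h | h
    · rw [h]; exact h1
    · rw [h]; exact h2
    · rw [h]; exact h3
    · have h' : x = b2' := h
      rw [h']; exact h4
  have w1 : b1 ∈ W := hJW b1 (by simp)
  have w2 : a1 ∈ W := hJW a1 (by simp)
  have w3 : a2 ∈ W := hJW a2 (by simp)
  have w4 : b2 ∈ W := hJW b2 (by simp)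
  have hρW : ∀ v ∈ W, ρ v ∈ W := by
    intro v hv
    rcases hρ v hv with h | h | h | h <;> rw [h] <;> assumption
  refine ⟨⟨b1, w1⟩, ⟨a1, w2⟩, ⟨a2, w3⟩, ⟨b2, w4⟩, fun v => ⟨ρ v, hρW v v.2⟩,
    ⟨by simpa using s1, by simpa using s2, by simpa using s3, by simpa using s4⟩,
    ⟨(hC.adj _ w1 _ w2).mp e1, (hC.adj _ w2 _ w3).mp e2, (hC.adj _ w3 _ w4).mp e3,
      fun h => e4 ((hC.adj _ w1 _ w3).mpr h), fun h => e5 ((hC.adj _ w1 _ w4).mpr h),
      fun h => e6 ((hC.adj _ w2 _ w4).mpr h), fun h => hbb (congrArg Subtype.val h)⟩, ?_,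
    ⟨Subtype.ext r1, Subtype.ext r2, Subtype.ext r3, Subtype.ext r4⟩, ?_, ?_⟩
  · intro u
    rcases hρ u u.2 with h | h | h | h
    · exact Or.inl (Subtype.ext h)
    · exact Or.inr (Or.inl (Subtype.ext h))
    · exact Or.inr (Or.inr (Or.inl (Subtype.ext h)))
    · exact Or.inr (Or.inr (Or.inr (Subtype.ext h)))
  · intro u v huv
    have h1 : ρ u ≠ ρ v := fun h => huv (Subtype.ext h)
    have h2 := hhom u u.2 v v.2 h1
    rw [hC.adj u u.2 v v.2, hC.adj _ (hρW u u.2) _ (hρW v v.2)] at h2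
    exact h2
  · intro u hu
    have h1 : (u : V) ≠ ρ u := fun h => hu (Subtype.ext h)
    have h2 := hfib u u.2 h1
    rw [hC.adj u u.2 _ (hρW u u.2)] at h2
    rw [decide_eq_false_iff_not]
    exact h2

/-- the bridge: what holds at one cut -/
theorem linFacts_of [Finite V] {G : SimpleGraph V} {W : Set V} {e : V → Z → Prop} {d f : V → ℕ}
    (s : V → Prop) [DecidablePred s] (hC : CutData G W e d f) (hsep : GD.Sep G W e)
    (hng : ∀ k J, ¬ GD.CGood G s W e GD.Kd.P k J)
    (hcl : ∀ Q, GD.IsMod G W Q → GD.CLAt G s W GD.Kd.P Q) :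
    LinFacts (fun v : W => d v) (fun v : W => f v) (fun v : W => decide (s v)) where
  ld0 := by
    rintro p q hd hf hcd hcf ⟨hp, hq⟩
    rw [decide_eq_false_iff_not] at hp hq
    have hpq : (p : V) ≠ q := fun h => by rw [h] at hd; omega
    have hA : ¬ G.Adj p q := by
      rw [hC.adj p p.2 q q.2]
      unfold Inv
      omega
    refine hng GD.Kd.Z {(p : V), (q : V)} ⟨⟨⟨p, q, p.2, q.2, hpq, hp, hq, hA, rfl⟩, ?_⟩,
      fun h => by cases h⟩
    refine digon_good s hC hsep p.2 q.2 hpq hd (fun v hv => hcd ⟨v, hv⟩)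
      (fun v hv => ⟨hcf ⟨v, hv⟩, fun h => by omega⟩) ?_
    tauto
  ld1 := by
    rintro p q hd hf hcd hcf ⟨hp, hq⟩
    rw [decide_eq_true_iff] at hp hq
    have hpq : (p : V) ≠ q := fun h => by rw [h] at hd; omega
    have hA : G.Adj p q := by
      rw [hC.adj p p.2 q q.2]
      unfold Inv
      omega
    refine hng GD.Kd.O {(p : V), (q : V)} ⟨⟨⟨p, q, p.2, q.2, hpq, hp, hq, hA, rfl⟩, ?_⟩,
      fun h => by cases h⟩
    refine digon_good s hC hsep p.2 q.2 hpq hd (fun v hv => hcd ⟨v, hv⟩)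
      (fun v hv => ⟨fun h => by omega, hcf ⟨v, hv⟩⟩) ?_
    tauto
  cl1 := by
    intro Q hQ h2
    have h3 := (hcl _ (isMod_image hC hQ)).1
      (by rw [Set.ncard_image_of_injective _ Subtype.val_injective]; exact h2)
    rcases h3 with h3 | h3 | ⟨-, h3, h4⟩
    · exact Or.inl ((disc_image hC).mp h3)
    · exact Or.inr (Or.inl ((codisc_image hC).mp h3))
    · refine Or.inr (Or.inr ⟨?_, exc_image hC h4⟩)
      ext v
      simp only [Set.mem_univ, iff_true]
      have : (v : V) ∈ Subtype.val '' Q := by rw [h3]; exact v.2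
      obtain ⟨u, hu, huv⟩ := this
      rwa [Subtype.ext huv] at hu
  cl2 := by
    intro hD
    have h1 := (disc_image hC (Q := Set.univ)).mpr hD
    have hW : (Subtype.val '' (Set.univ : Set W)) = W := by simp
    rw [hW] at h1
    have hmod : GD.IsMod G W W := ⟨subset_rfl, fun w hw hw' => absurd hw hw'⟩
    obtain ⟨r, hr, hsr, hr'⟩ := (hcl W hmod).2.1 h1
      (fun K hK hKW _ _ => by
        obtain ⟨k, hk⟩ := hK
        exact (hKW hk).2 (hKW hk).1)
      (fun h => by cases h.1)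
    exact ⟨⟨r, hr⟩, by simpa using hsr, fun u hu => hr' u u.2 ((hC.adj r hr u u.2).mpr hu)⟩
  cl3 := by
    intro hD
    have h1 := (codisc_image hC (Q := Set.univ)).mpr hD
    have hW : (Subtype.val '' (Set.univ : Set W)) = W := by simp
    rw [hW] at h1
    have hmod : GD.IsMod G W W := ⟨subset_rfl, fun w hw hw' => absurd hw hw'⟩
    obtain ⟨r, hr, hsr, hr'⟩ := (hcl W hmod).2.2 h1
      (fun K hK hKW _ _ => by
        obtain ⟨k, hk⟩ := hK
        exact (hKW hk).2 (hKW hk).1)
      (fun h => by cases h.1)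
    exact ⟨⟨r, hr⟩, by simpa using hsr, fun u hu => (hC.adj r hr u u.2).mp
      (hr' u u.2 (fun h => hu (Subtype.ext h)))⟩

/-- every module with two vertices is split by an observer (the hull argument) -/
theorem sep_of [Finite V] {G : SimpleGraph V} {W : Set V} {e : V → Z → Prop} {d f : V → ℕ}
    (hC : CutData G W e d f)
    (hmd : ∀ m, (∀ v ∈ W, d v ≠ m) → (∃ v ∈ W, d v < m) → (∃ v ∈ W, m < d v) →
      ∃ y, ∀ v ∈ W, (e v y ↔ d v < m))
    (hmf : ∀ m, (∀ v ∈ W, f v ≠ m) → (∃ v ∈ W, f v < m) → (∃ v ∈ W, m < f v) →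
      ∃ y, ∀ v ∈ W, (e v y ↔ f v < m))
    (hno : ∀ X ⊆ W, 2 ≤ X.ncard → ¬ ((∃ a b, ∀ i, (a ≤ i ∧ i ≤ b) ↔ ∃ x ∈ X, d x = i) ∧
      (∃ a b, ∀ i, (a ≤ i ∧ i ≤ b) ↔ ∃ x ∈ X, f x = i))) : GD.Sep G W e := by
  intro U hU h2
  by_contra hcon
  push Not at hcon
  obtain ⟨hUW, hUm⟩ := hU
  have hUm' : ∀ u ∈ U, ∀ v ∈ U, ∀ w ∈ W, w ∉ U → (Inv d f w u ↔ Inv d f w v) := by
    intro u hu v hv w hw hwU
    rw [← hC.adj w hw u (hUW hu), ← hC.adj w hw v (hUW hv)]
    rcases hUm w hw hwU with h | h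
    · simp [h u hu, h v hv]
    · simp [h u hu, h v hv]
  have hDF : ∀ v ∈ W, (∃ x ∈ U, ∃ y ∈ U, d x ≤ d v ∧ d v ≤ d y) →
      (∃ x ∈ U, ∃ y ∈ U, f x ≤ f v ∧ f v ≤ f y) := by
    rintro v hvW ⟨x, hx, y, hy, h1, h2⟩
    by_cases hv : v ∈ U
    · exact ⟨v, hv, v, hv, le_rfl, le_rfl⟩
    · have hvx : v ≠ x := fun hh => hv (hh ▸ hx)
      have hvy : v ≠ y := fun hh => hv (hh ▸ hy)
      have h3 := hUm' x hx y hy v hvW hv
      have a1 : d v ≠ d x := fun hh => hvx (hC.dinj hvW (hUW hx) hh)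
      have a2 : d v ≠ d y := fun hh => hvy (hC.dinj hvW (hUW hy) hh)
      have a3 : f v ≠ f x := fun hh => hvx (hC.finj hvW (hUW hx) hh)
      have a4 : f v ≠ f y := fun hh => hvy (hC.finj hvW (hUW hy) hh)
      unfold Inv at h3
      by_cases h4 : f v < f x
      · exact ⟨y, hy, x, hx, by omega, by omega⟩
      · exact ⟨x, hx, y, hy, by omega, by omega⟩
  have hFD : ∀ v ∈ W, (∃ x ∈ U, ∃ y ∈ U, f x ≤ f v ∧ f v ≤ f y) →
      (∃ x ∈ U, ∃ y ∈ U, d x ≤ d v ∧ d v ≤ d y) := by
    rintro v hvW ⟨x, hx, y, hy, h1, h2⟩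
    by_cases hv : v ∈ U
    · exact ⟨v, hv, v, hv, le_rfl, le_rfl⟩
    · have hvx : v ≠ x := fun hh => hv (hh ▸ hx)
      have hvy : v ≠ y := fun hh => hv (hh ▸ hy)
      have h3 := hUm' x hx y hy v hvW hv
      have a1 : d v ≠ d x := fun hh => hvx (hC.dinj hvW (hUW hx) hh)
      have a2 : d v ≠ d y := fun hh => hvy (hC.dinj hvW (hUW hy) hh)
      have a3 : f v ≠ f x := fun hh => hvx (hC.finj hvW (hUW hx) hh)
      have a4 : f v ≠ f y := fun hh => hvy (hC.finj hvW (hUW hy) hh)
      unfold Inv at h3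
      by_cases h4 : d v < d x
      · exact ⟨y, hy, x, hx, by omega, by omega⟩
      · exact ⟨x, hx, y, hy, by omega, by omega⟩
  have hUne : U.Nonempty := Set.nonempty_of_ncard_ne_zero (by omega)
  have hUf : U.Finite := Set.toFinite U
  obtain ⟨x₁, hx₁, hmin₁⟩ := Set.exists_min_image U d hUf hUne
  obtain ⟨y₁, hy₁, hmax₁⟩ := Set.exists_max_image U d hUf hUne
  obtain ⟨x₂, hx₂, hmin₂⟩ := Set.exists_min_image U f hUf hUne
  obtain ⟨y₂, hy₂, hmax₂⟩ := Set.exists_max_image U f hUf hUne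
  refine hno {v | v ∈ W ∧ ∃ x ∈ U, ∃ y ∈ U, d x ≤ d v ∧ d v ≤ d y} (fun v hv => hv.1) ?_ ⟨?_, ?_⟩
  · refine le_trans h2 (Set.ncard_le_ncard ?_ (Set.toFinite _))
    exact fun u hu => ⟨hUW hu, u, hu, u, hu, le_rfl, le_rfl⟩
  · refine ⟨d x₁, d y₁, fun i => ⟨?_, ?_⟩⟩
    · rintro ⟨h3, h4⟩
      by_contra h5
      have hmark : ∀ v ∈ W, d v ≠ i := by
        intro v hv hvi
        exact h5 ⟨v, ⟨hv, x₁, hx₁, y₁, hy₁, by omega, by omega⟩, hvi⟩
      have h6 := hmark x₁ (hUW hx₁)
      have h7 := hmark y₁ (hUW hy₁)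
      obtain ⟨o, ho⟩ := hmd i hmark ⟨x₁, hUW hx₁, by omega⟩ ⟨y₁, hUW hy₁, by omega⟩
      have h8 := hcon o x₁ hx₁ y₁ hy₁ ((ho x₁ (hUW hx₁)).mpr (by omega))
      have h9 := (ho y₁ (hUW hy₁)).mp h8
      omega
    · rintro ⟨v, ⟨hv, x, hx, y, hy, h3, h4⟩, rfl⟩
      have h5 := hmin₁ x hx
      have h6 := hmax₁ y hy
      omega
  · refine ⟨f x₂, f y₂, fun i => ⟨?_, ?_⟩⟩
    · rintro ⟨h3, h4⟩
      by_contra h5
      have hmark : ∀ v ∈ W, f v ≠ i := by
        intro v hv hvi
        exact h5 ⟨v, ⟨hv, hFD v hv ⟨x₂, hx₂, y₂, hy₂, by omega, by omega⟩⟩, hvi⟩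
      have h6 := hmark x₂ (hUW hx₂)
      have h7 := hmark y₂ (hUW hy₂)
      obtain ⟨o, ho⟩ := hmf i hmark ⟨x₂, hUW hx₂, by omega⟩ ⟨y₂, hUW hy₂, by omega⟩
      have h8 := hcon o x₂ hx₂ y₂ hy₂ ((ho x₂ (hUW hx₂)).mpr (by omega))
      have h9 := (ho y₂ (hUW hy₂)).mp h8
      omega
    · rintro ⟨v, ⟨hv, hvU⟩, rfl⟩
      obtain ⟨x, hx, y, hy, h3, h4⟩ := hDF v hv hvU
      have h5 := hmin₂ x hx
      have h6 := hmax₂ y hy
      omega

end Pool.Agent.GDW
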